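import Pool.Agent.W_420c7c_s.Rad

/-! MP_420c7c_nt, theorem (S): the two statistics `av cos (t X)` and `av X ^ 2` of the random
function `X = (1/2) Sum (+-1) a_i`. -/

set_option autoImplicit false
set_option maxHeartbeats 1000000
open Finset

namespace Pool.Agent.W_420c7c_s

/-- the random function: `X w x = (1/2) Sum_i (sign of bit i) a_i x` -/
noncomputable def XX {ι G : Type*} [Fintype ι] (a : ι → G → ℝ) (w : ι → Bool) (x : G) : ℝ :=
  (∑ i, sg (w i) * a i x) / 2

/-- operator norm bound: `Sum_i (avg s a_i)^2 <= Gam avg s^2` for all `s` -/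
def Op {ι G : Type*} [Fintype ι] [Fintype G] (a : ι → G → ℝ) (Γ : ℝ) : Prop :=
  ∀ s : G → ℝ, ∑ i, (av fun x => s x * a i x) ^ 2 ≤ Γ * av fun x => s x ^ 2

variable {ι G : Type*} [Fintype ι] [Fintype G] [Nonempty G]

omit [Nonempty G] in
theorem av_comm (f : ι → G → ℝ) : av (fun i => av fun x => f i x) = av fun x => av fun i => f i x := by
  unfold av
  rw [← sum_div, ← sum_div, sum_comm]
  rw [div_div, div_div, mul_comm]

/-- Chebyshev, lower tail: values of `F` below `m - e`, where `m <= mean`. -/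
theorem cheb_low (F : G → ℝ) (m e V : ℝ) (he : 0 < e) (hm : m ≤ av F)
    (hV : av (fun x => F x ^ 2) - (av F) ^ 2 ≤ V) [DecidablePred fun x => F x < m - e] :
    e ^ 2 * ((univ.filter fun x => F x < m - e).card : ℝ) ≤ V * Fintype.card G := by
  classical
  have h1 := markov (fun x => (F x - av F) ^ 2) (fun x => sq_nonneg _) (e ^ 2)
  have e1 : av (fun x => (F x - av F) ^ 2) = av (fun x => F x ^ 2) - (av F) ^ 2 := by
    have e2 : (fun x => (F x - av F) ^ 2) = fun x => (F x ^ 2 - (2 * av F) * F x) + (av F) ^ 2 := by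
      funext x
      ring
    rw [e2, av_add, av_sub, av_mul_left, av_const]
    ring
  rw [e1] at h1
  refine le_trans (mul_le_mul_of_nonneg_left ?_ (by positivity)) (h1.trans
    (mul_le_mul_of_nonneg_right hV (Nat.cast_nonneg _)))
  exact_mod_cast card_le_card fun x hx => by
    rw [mem_filter] at hx ⊢
    refine ⟨hx.1, ?_⟩
    have h2 : e ≤ av F - F x := by linarith [hx.2]
    nlinarith

/-- Chebyshev, upper tail. -/
theorem cheb_up (F : G → ℝ) (m e V : ℝ) (he : 0 < e) (hm : av F ≤ m)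
    (hV : av (fun x => F x ^ 2) - (av F) ^ 2 ≤ V) [DecidablePred fun x => m + e < F x] :
    e ^ 2 * ((univ.filter fun x => m + e < F x).card : ℝ) ≤ V * Fintype.card G := by
  classical
  have h1 := markov (fun x => (F x - av F) ^ 2) (fun x => sq_nonneg _) (e ^ 2)
  have e1 : av (fun x => (F x - av F) ^ 2) = av (fun x => F x ^ 2) - (av F) ^ 2 := by
    have e2 : (fun x => (F x - av F) ^ 2) = fun x => (F x ^ 2 - (2 * av F) * F x) + (av F) ^ 2 := by
      funext x
      ring
    rw [e2, av_add, av_sub, av_mul_left, av_const]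
    ring
  rw [e1] at h1
  refine le_trans (mul_le_mul_of_nonneg_left ?_ (by positivity)) (h1.trans
    (mul_le_mul_of_nonneg_right hV (Nat.cast_nonneg _)))
  exact_mod_cast card_le_card fun x hx => by
    rw [mem_filter] at hx ⊢
    refine ⟨hx.1, ?_⟩
    have h2 : e ≤ F x - av F := by linarith [hx.2]
    nlinarith

/-- The operator bound from its dual form. -/
theorem op_of_dual (a : ι → G → ℝ) (Γ : ℝ) (hΓ : 0 ≤ Γ)
    (h : ∀ v : ι → ℝ, av (fun x => (∑ i, v i * a i x) ^ 2) ≤ Γ * ∑ i, v i ^ 2) : Op a Γ := by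
  intro s
  set v : ι → ℝ := fun i => av fun x => s x * a i x with hv
  have h1 : ∑ i, v i ^ 2 = av fun x => s x * ∑ i, v i * a i x := by
    have e : (fun x => s x * ∑ i, v i * a i x) = fun x => ∑ i, v i * (s x * a i x) := by
      funext x
      rw [mul_sum]
      exact sum_congr rfl fun i _ => by ring
    rw [e, av_sum]
    refine sum_congr rfl fun i _ => ?_
    rw [av_mul_left, sq]
  have h2 := h v
  have h3 : ∀ c : ℝ, 0 ≤ av (fun x => s x ^ 2) - 2 * c * ∑ i, v i ^ 2 + c ^ 2 * (Γ * ∑ i, v i ^ 2) := by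
    intro c
    have h4 := av_nonneg (G := G) (f := fun x => (s x - c * ∑ i, v i * a i x) ^ 2)
      fun x => sq_nonneg _
    have e2 : (fun x => (s x - c * ∑ i, v i * a i x) ^ 2) = fun x =>
        (s x ^ 2 - (2 * c) * (s x * ∑ i, v i * a i x)) + c ^ 2 * (∑ i, v i * a i x) ^ 2 := by
      funext x
      ring
    rw [e2, av_add, av_sub, av_mul_left, av_mul_left, ← h1] at h4
    nlinarith [mul_le_mul_of_nonneg_left h2 (sq_nonneg c)]
  change ∑ i, v i ^ 2 ≤ Γ * av fun x => s x ^ 2
  set S := ∑ i, v i ^ 2 with hS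
  have hS0 : 0 ≤ S := sum_nonneg fun i _ => sq_nonneg _
  rcases hΓ.eq_or_lt with h0 | h0
  · -- Γ = 0
    rw [← h0] at h3 ⊢
    rw [zero_mul]
    by_contra hne
    have hSp : 0 < S := not_le.1 hne
    have h5 := h3 ((av (fun x => s x ^ 2) + 1) / S)
    have h6 : 2 * ((av (fun x => s x ^ 2) + 1) / S) * S = 2 * (av (fun x => s x ^ 2) + 1) := by
      field_simp
    rw [h6] at h5
    have h7 : 0 ≤ av fun x => s x ^ 2 := av_nonneg fun x => sq_nonneg _
    linarith
  · have h5 := h3 (1 / Γ)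
    have h6 : (1 / Γ) ^ 2 * (Γ * S) = 1 / Γ * S := by
      field_simp
    rw [h6] at h5
    have h7 : 1 / Γ * S ≤ av fun x => s x ^ 2 := by linarith
    have h8 := mul_le_mul_of_nonneg_left h7 hΓ
    have h9 : Γ * (1 / Γ * S) = S := by
      field_simp
    linarith

theorem XX_update [DecidableEq ι] (a : ι → G → ℝ) (w : ι → Bool) (i : ι) (b : Bool) (x : G) :
    XX a (Function.update w i b) x = XX a w x + (sg b - sg (w i)) * a i x / 2 := by
  unfold XX
  have h : ∑ j, sg (Function.update w i b j) * a j x =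
      ∑ j, sg (w j) * a j x + (sg b - sg (w i)) * a i x := by
    rw [← Finset.add_sum_erase _ _ (mem_univ i), ← Finset.add_sum_erase _ (fun j => sg (w j) * a j x)
      (mem_univ i), Function.update_self]
    have h1 : ∑ j ∈ univ.erase i, sg (Function.update w i b j) * a j x =
        ∑ j ∈ univ.erase i, sg (w j) * a j x :=
      sum_congr rfl fun j hj => by rw [Function.update_of_ne (ne_of_mem_erase hj)]
    rw [h1]
    ring
  rw [h]
  ring

/-! ### The cosine statistic -/

/-- mean of the cosine statistic -/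
theorem mean_cos [DecidableEq ι] (a : ι → G → ℝ) (t A : ℝ)
    (hA : ∀ i x, |a i x| ≤ A) (htA : |t| * A ≤ 1) :
    Real.exp (-(t ^ 2 / 8 * ∑ i, av fun x => a i x ^ 2) - Fintype.card ι * (|t| * A) ^ 4 / 64) ≤
      av fun w : ι → Bool => av fun x => Real.cos (t * XX a w x) := by
  rw [av_comm]
  have h1 : ∀ x, av (fun w : ι → Bool => Real.cos (t * XX a w x)) =
      ∏ i, Real.cos (t * a i x / 2) := by
    intro x
    rw [← av_cos]
    congr 1
    funext w
    unfold XX
    rw [← mul_div_assoc, mul_sum, sum_div]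
    congr 1
    exact sum_congr rfl fun i _ => by ring
  simp only [h1]
  have hb : ∀ i x, |t * a i x / 2| ≤ |t| * A / 2 := by
    intro i x
    rw [abs_div, abs_mul, abs_of_pos (by norm_num : (0 : ℝ) < 2)]
    exact div_le_div_of_nonneg_right (mul_le_mul_of_nonneg_left (hA i x) (abs_nonneg t)) (by norm_num)
  have h2 : ∀ x, Real.exp (-(t ^ 2 / 8 * ∑ i, a i x ^ 2) - Fintype.card ι * (|t| * A) ^ 4 / 64) ≤
      ∏ i, Real.cos (t * a i x / 2) := by
    intro x
    have h3 : Real.exp (∑ i : ι, (-((t * a i x / 2) ^ 2 / 2) - (t * a i x / 2) ^ 4 / 4)) ≤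
        ∏ i, Real.cos (t * a i x / 2) := by
      rw [Real.exp_sum]
      refine prod_le_prod (fun i _ => (Real.exp_pos _).le) fun i _ => ?_
      exact cos_ge_exp ((hb i x).trans (by linarith))
    refine le_trans (Real.exp_le_exp.2 ?_) h3
    rw [sum_sub_distrib, sum_neg_distrib]
    have h4 : ∑ i : ι, (t * a i x / 2) ^ 2 / 2 = t ^ 2 / 8 * ∑ i, a i x ^ 2 := by
      rw [mul_sum]
      exact sum_congr rfl fun i _ => by ring
    have h5 : ∑ i : ι, (t * a i x / 2) ^ 4 / 4 ≤ Fintype.card ι * (|t| * A) ^ 4 / 64 := by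
      have h6 : ∀ i : ι, (t * a i x / 2) ^ 4 / 4 ≤ (|t| * A) ^ 4 / 64 := by
        intro i
        have h7 : (t * a i x / 2) ^ 4 = |t * a i x / 2| ^ 4 := by
          rw [← abs_pow, abs_of_nonneg (Even.pow_nonneg (by decide) _)]
        rw [h7]
        have h8 := pow_le_pow_left₀ (abs_nonneg _) (hb i x) 4
        have h9 : (|t| * A / 2) ^ 4 = (|t| * A) ^ 4 / 16 := by ring
        rw [h9] at h8
        linarith
      refine (sum_le_sum fun i _ => h6 i).trans (le_of_eq ?_)
      rw [sum_const, card_univ, nsmul_eq_mul]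
      ring
    rw [h4]
    linarith
  refine le_trans ?_ (av_mono h2)
  refine le_trans (le_of_eq ?_) (exp_av_le _)
  congr 1
  rw [av_sub, av_const]
  congr 1
  have e1 : (fun x => -(t ^ 2 / 8 * ∑ i, a i x ^ 2)) = fun x => (-(t ^ 2 / 8)) * ∑ i, a i x ^ 2 := by
    funext x
    ring
  rw [e1, av_mul_left, av_sum]
  ring

theorem dd_cos [DecidableEq ι] (a : ι → G → ℝ) (t A : ℝ) (hA0 : 0 ≤ A)
    (hA : ∀ i x, |a i x| ≤ A) (htA : |t| * A ≤ 1) (i : ι) (w : ι → Bool) :
    dd (fun w => av fun x => Real.cos (t * XX a w x)) i w ^ 2 ≤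
      t ^ 2 / 2 * (av fun x => Real.sin (t * XX a w x) * a i x) ^ 2 + (|t| * A) ^ 4 / 5 := by
  -- the derivative
  set Y : G → ℝ := fun x => XX a w x - sg (w i) * a i x / 2 with hY
  have hd : dd (fun w => av fun x => Real.cos (t * XX a w x)) i w =
      av fun x => -(Real.sin (t * Y x) * Real.sin (t * a i x / 2)) := by
    unfold dd
    rw [← av_sub]
    have e1 : ∀ f : G → ℝ, av f / 2 = av fun x => f x / 2 := by
      intro f
      have e2 : (fun x => f x / 2) = fun x => (1 / 2) * f x := by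
        funext x
        ring
      rw [e2, av_mul_left]
      ring
    rw [e1]
    congr 1
    funext x
    rw [XX_update, XX_update]
    have e3 : t * (XX a w x + (sg true - sg (w i)) * a i x / 2) = t * Y x + t * a i x / 2 := by
      rw [hY]
      simp only [sg, if_true]
      ring
    have e4 : t * (XX a w x + (sg false - sg (w i)) * a i x / 2) = t * Y x - t * a i x / 2 := by
      rw [hY]
      simp only [sg, Bool.false_eq_true, if_false]
      ring
    rw [e3, e4, Real.cos_add, Real.cos_sub]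
    ring
  have hs : |sg (w i)| = 1 := by
    unfold sg
    split_ifs
    · exact abs_one
    · rw [abs_neg, abs_one]
  -- comparison
  set u : ℝ := |t| * A with hu
  have hu0 : 0 ≤ u := mul_nonneg (abs_nonneg _) hA0
  have hb : ∀ x, |t * a i x / 2| ≤ u / 2 := by
    intro x
    rw [abs_div, abs_mul, abs_of_pos (by norm_num : (0 : ℝ) < 2)]
    exact div_le_div_of_nonneg_right (mul_le_mul_of_nonneg_left (hA i x) (abs_nonneg t)) (by norm_num)
  have hcmp : ∀ x, |Real.sin (t * Y x) * Real.sin (t * a i x / 2) -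
      Real.sin (t * XX a w x) * (t * a i x / 2)| ≤ 9 / 32 * u ^ 2 := by
    intro x
    set y := t * a i x / 2 with hy
    have hy1 := hb x
    rw [← hy] at hy1
    have hy2 : |y| ≤ 1 := hy1.trans (by linarith)
    have h1 : Real.sin (t * Y x) * Real.sin y - Real.sin (t * XX a w x) * y =
        (Real.sin (t * Y x) - Real.sin (t * XX a w x)) * Real.sin y +
        Real.sin (t * XX a w x) * (Real.sin y - y) := by ring
    have h2 : |Real.sin (t * Y x) - Real.sin (t * XX a w x)| ≤ |y| := by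
      have h3 := Real.abs_sin_sub_sin_le (t * Y x) (t * XX a w x)
      refine h3.trans (le_of_eq ?_)
      have e5 : t * Y x - t * XX a w x = -(sg (w i) * y) := by
        rw [hY, hy]
        ring
      rw [e5, abs_neg, abs_mul, hs, one_mul]
    have h3 : |Real.sin y| ≤ |y| := Real.abs_sin_le_abs
    have h4 := abs_sin_sub_le hy2
    rw [h1]
    refine (abs_add_le _ _).trans ?_
    rw [abs_mul, abs_mul]
    have h5 : |Real.sin (t * Y x) - Real.sin (t * XX a w x)| * |Real.sin y| ≤ |y| * |y| :=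
      mul_le_mul h2 h3 (abs_nonneg _) (abs_nonneg _)
    have h6 : |Real.sin (t * XX a w x)| * |Real.sin y - y| ≤ 1 * (|y| ^ 3 / 4) :=
      mul_le_mul (Real.abs_sin_le_one _) h4 (abs_nonneg _) (by norm_num)
    have h7 : |y| ^ 2 ≤ u ^ 2 / 4 := by
      have h8 := pow_le_pow_left₀ (abs_nonneg y) hy1 2
      have e6 : (u / 2) ^ 2 = u ^ 2 / 4 := by ring
      rwa [e6] at h8
    have h8 : |y| ^ 3 ≤ u ^ 2 / 8 := by
      have e7 : |y| ^ 3 = |y| ^ 2 * |y| := by ring
      have h9 : |y| ≤ 1 / 2 := hy1.trans (by linarith)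
      rw [e7]
      calc |y| ^ 2 * |y| ≤ (u ^ 2 / 4) * (1 / 2) := mul_le_mul h7 h9 (abs_nonneg _) (by positivity)
        _ = u ^ 2 / 8 := by ring
    nlinarith
  rw [hd]
  set P := av fun x => Real.sin (t * XX a w x) * a i x with hP
  have e8 : av (fun x => Real.sin (t * XX a w x) * (t * a i x / 2)) = t / 2 * P := by
    rw [hP, ← av_mul_left]
    congr 1
    funext x
    ring
  set Q := av fun x => -(Real.sin (t * Y x) * Real.sin (t * a i x / 2)) with hQ
  have h9 : |Q + t / 2 * P| ≤ 9 / 32 * u ^ 2 := by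
    rw [← e8, hQ, ← av_add]
    refine (abs_av_le _).trans ?_
    refine (av_mono (g := fun _ => 9 / 32 * u ^ 2) fun x => ?_).trans (le_of_eq (av_const _))
    rw [show -(Real.sin (t * Y x) * Real.sin (t * a i x / 2)) +
      Real.sin (t * XX a w x) * (t * a i x / 2) = -(Real.sin (t * Y x) * Real.sin (t * a i x / 2) -
      Real.sin (t * XX a w x) * (t * a i x / 2)) by ring, abs_neg]
    exact hcmp x
  have h10 : (Q + t / 2 * P) ^ 2 ≤ (9 / 32 * u ^ 2) ^ 2 := by
    rw [← sq_abs]
    exact pow_le_pow_left₀ (abs_nonneg _) h9 2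
  have h11 : Q ^ 2 ≤ 2 * (Q + t / 2 * P) ^ 2 + 2 * (t / 2 * P) ^ 2 := by
    nlinarith [sq_nonneg (Q + 2 * (t / 2 * P))]
  have h12 : 0 ≤ u ^ 4 := by positivity
  nlinarith

/-- variance of the cosine statistic -/
theorem var_cos [DecidableEq ι] (a : ι → G → ℝ) (t A Γ : ℝ) (hA0 : 0 ≤ A)
    (hA : ∀ i x, |a i x| ≤ A) (htA : |t| * A ≤ 1) (hΓ0 : 0 ≤ Γ) (hΓ : Op a Γ) :
    av (fun w : ι → Bool => (av fun x => Real.cos (t * XX a w x)) ^ 2) -
      (av fun w : ι → Bool => av fun x => Real.cos (t * XX a w x)) ^ 2 ≤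
      t ^ 2 / 2 * Γ + Fintype.card ι * (|t| * A) ^ 4 / 5 := by
  refine (poincare ι _).trans ?_
  rw [← av_sum]
  refine (av_mono (g := fun _ => t ^ 2 / 2 * Γ + Fintype.card ι * (|t| * A) ^ 4 / 5)
    fun w => ?_).trans (le_of_eq (av_const _))
  refine (sum_le_sum fun i _ => dd_cos a t A hA0 hA htA i w).trans ?_
  rw [sum_add_distrib, ← mul_sum, sum_const, card_univ, nsmul_eq_mul]
  have h1 := hΓ fun x => Real.sin (t * XX a w x)
  have h2 : av (fun x => Real.sin (t * XX a w x) ^ 2) ≤ 1 := by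
    refine (av_mono (g := fun _ => (1 : ℝ)) fun x => ?_).trans (le_of_eq (av_const _))
    exact Real.sin_sq_le_one _
  have h3 := h1.trans ((mul_le_mul_of_nonneg_left h2 hΓ0).trans (le_of_eq (mul_one Γ)))
  have h4 := mul_le_mul_of_nonneg_left h3 (by positivity : (0 : ℝ) ≤ t ^ 2 / 2)
  linarith

open Classical in
/-- few bit strings have a small cosine statistic -/
theorem bad_cos [DecidableEq ι] (a : ι → G → ℝ) (t A Γ e : ℝ) (hA0 : 0 ≤ A)
    (hA : ∀ i x, |a i x| ≤ A) (htA : |t| * A ≤ 1) (hΓ0 : 0 ≤ Γ) (hΓ : Op a Γ) (he : 0 < e) :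
    e ^ 2 * ((univ.filter fun w : ι → Bool => av (fun x => Real.cos (t * XX a w x)) <
      Real.exp (-(t ^ 2 / 8 * ∑ i, av fun x => a i x ^ 2) -
        Fintype.card ι * (|t| * A) ^ 4 / 64) - e).card : ℝ) ≤
      (t ^ 2 / 2 * Γ + Fintype.card ι * (|t| * A) ^ 4 / 5) * Fintype.card (ι → Bool) := by
  have h := cheb_low (fun w : ι → Bool => av fun x => Real.cos (t * XX a w x)) _ e _ he
    (mean_cos a t A hA htA) (var_cos a t A Γ hA0 hA htA hΓ0 hΓ)
  convert h

/-! ### The quadratic statistic -/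

theorem mean_sq [DecidableEq ι] (a : ι → G → ℝ) :
    av (fun w : ι → Bool => av fun x => XX a w x ^ 2) = (∑ i, av fun x => a i x ^ 2) / 4 := by
  rw [av_comm]
  have h1 : ∀ x, av (fun w : ι → Bool => XX a w x ^ 2) = (1 / 4) * ∑ i, a i x ^ 2 := by
    intro x
    rw [← av_sq, ← av_mul_left]
    congr 1
    funext w
    unfold XX
    ring
  simp only [h1]
  rw [av_mul_left, av_sum]
  ring

theorem dd_sq [DecidableEq ι] (a : ι → G → ℝ) (i : ι) (w : ι → Bool) :
    dd (fun w => av fun x => XX a w x ^ 2) i w ^ 2 ≤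
      2 * (av fun x => XX a w x * a i x) ^ 2 + (av fun x => a i x ^ 2) ^ 2 / 2 := by
  have hd : dd (fun w => av fun x => XX a w x ^ 2) i w =
      (av fun x => XX a w x * a i x) - sg (w i) / 2 * av fun x => a i x ^ 2 := by
    unfold dd
    rw [← av_sub, ← av_mul_left (sg (w i) / 2), ← av_sub]
    have e1 : ∀ f : G → ℝ, av f / 2 = av fun x => f x / 2 := by
      intro f
      have e2 : (fun x => f x / 2) = fun x => (1 / 2) * f x := by
        funext x
        ring
      rw [e2, av_mul_left]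
      ring
    rw [e1]
    congr 1
    funext x
    rw [XX_update, XX_update]
    simp only [sg, if_true, Bool.false_eq_true, if_false]
    ring
  rw [hd]
  set P := av fun x => XX a w x * a i x
  set Q := av fun x => a i x ^ 2
  have hs : sg (w i) ^ 2 = 1 := by
    unfold sg
    split_ifs <;> norm_num
  nlinarith [sq_nonneg (P + sg (w i) / 2 * Q)]

/-- variance of the quadratic statistic -/
theorem var_sq [DecidableEq ι] (a : ι → G → ℝ) (A Γ : ℝ)
    (hA : ∀ i x, |a i x| ≤ A) (hΓ0 : 0 ≤ Γ) (hΓ : Op a Γ) :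
    av (fun w : ι → Bool => (av fun x => XX a w x ^ 2) ^ 2) -
      (av fun w : ι → Bool => av fun x => XX a w x ^ 2) ^ 2 ≤
      (Γ + A ^ 2) / 2 * ∑ i, av fun x => a i x ^ 2 := by
  refine (poincare ι _).trans ?_
  rw [← av_sum]
  have h1 : ∀ w : ι → Bool, ∑ i, dd (fun w => av fun x => XX a w x ^ 2) i w ^ 2 ≤
      2 * Γ * av (fun x => XX a w x ^ 2) + A ^ 2 / 2 * ∑ i, av fun x => a i x ^ 2 := by
    intro w
    refine (sum_le_sum fun i _ => dd_sq a i w).trans ?_
    rw [sum_add_distrib, ← mul_sum]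
    have h2 := hΓ (XX a w)
    have h3 : ∑ i, (av fun x => a i x ^ 2) ^ 2 / 2 ≤ A ^ 2 / 2 * ∑ i, av fun x => a i x ^ 2 := by
      rw [mul_sum]
      refine sum_le_sum fun i _ => ?_
      have h4 : av (fun x => a i x ^ 2) ≤ A ^ 2 := by
        refine (av_mono (g := fun _ => A ^ 2) fun x => ?_).trans (le_of_eq (av_const _))
        rw [← sq_abs]
        exact pow_le_pow_left₀ (abs_nonneg _) (hA i x) 2
      have h5 : 0 ≤ av fun x => a i x ^ 2 := av_nonneg fun x => sq_nonneg _
      nlinarith [mul_le_mul_of_nonneg_right h4 h5]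
    linarith
  refine (av_mono h1).trans ?_
  rw [av_add, av_mul_left, av_const, mean_sq]
  nlinarith

open Classical in
/-- few bit strings have a large quadratic statistic -/
theorem bad_sq [DecidableEq ι] (a : ι → G → ℝ) (A Γ e : ℝ)
    (hA : ∀ i x, |a i x| ≤ A) (hΓ0 : 0 ≤ Γ) (hΓ : Op a Γ) (he : 0 < e) :
    e ^ 2 * ((univ.filter fun w : ι → Bool => (∑ i, av fun x => a i x ^ 2) / 4 + e <
      av fun x => XX a w x ^ 2).card : ℝ) ≤
      ((Γ + A ^ 2) / 2 * ∑ i, av fun x => a i x ^ 2) * Fintype.card (ι → Bool) := by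
  have h := cheb_up (fun w : ι → Bool => av fun x => XX a w x ^ 2) _ e _ he
    (le_of_eq (mean_sq a)) (var_sq a A Γ hA hΓ0 hΓ)
  convert h

end Pool.Agent.W_420c7c_s
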