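import Pool.Agent.W_420c7c_s.Tri

/-! MP_420c7c_nt, theorem (S): the embedding of `L^1` into a Euclidean space, adapted to functions
whose law is close to a Gaussian. -/

set_option autoImplicit false
set_option maxHeartbeats 1000000
open Finset

namespace Pool.Agent.W_420c7c_s

/-- the vectors of the embedding -/
noncomputable def embV (S : Finset ℕ) (J : ℕ) (P : ℝ) (γ : ℕ → ℝ) (X : ℕ → ℝ) :
    (Fin J × S × Bool) ⊕ S → ℝ
  | Sum.inl (n, x, true) => √(P / (2 * Real.pi ^ 2) / S.card) / ((n : ℝ) + 1) *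
      (Real.cos (2 * Real.pi * ((n : ℝ) + 1) / P * X x) - γ n)
  | Sum.inl (n, x, false) => √(P / (2 * Real.pi ^ 2) / S.card) / ((n : ℝ) + 1) *
      Real.sin (2 * Real.pi * ((n : ℝ) + 1) / P * X x)
  | Sum.inr x => X x / √(P * S.card)

theorem embV_norm (S : Finset ℕ) (J : ℕ) (P : ℝ) (hP : 0 < P) (γ : ℕ → ℝ) (X : ℕ → ℝ) :
    ∑ k, embV S J P γ X k ^ 2 =
      (∑ x ∈ S, (P / (2 * Real.pi ^ 2) * ∑ n ∈ range J,
        (1 - 2 * γ n * Real.cos (2 * Real.pi * ((n : ℝ) + 1) / P * X x) + γ n ^ 2) /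
          ((n : ℝ) + 1) ^ 2 + X x ^ 2 / P)) / S.card := by
  rw [Fintype.sum_sum_type, Fintype.sum_prod_type]
  have h1 : ∀ n : Fin J, ∑ y : S × Bool, embV S J P γ X (Sum.inl (n, y)) ^ 2 =
      (∑ x ∈ S, P / (2 * Real.pi ^ 2) *
        ((1 - 2 * γ n * Real.cos (2 * Real.pi * ((n : ℝ) + 1) / P * X x) + γ n ^ 2) /
          ((n : ℝ) + 1) ^ 2)) / S.card := by
    intro n
    rw [Fintype.sum_prod_type, ← Finset.sum_coe_sort S, sum_div]
    refine sum_congr rfl fun x _ => ?_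
    rw [Fintype.sum_bool]
    simp only [embV]
    rw [mul_pow, mul_pow, div_pow, Real.sq_sqrt (by positivity)]
    have h2 := Real.sin_sq_add_cos_sq (2 * Real.pi * ((n : ℝ) + 1) / P * X x)
    set c := Real.cos (2 * Real.pi * ((n : ℝ) + 1) / P * X x)
    set s := Real.sin (2 * Real.pi * ((n : ℝ) + 1) / P * X x)
    have h3 : (c - γ n) ^ 2 + s ^ 2 = 1 - 2 * γ n * c + γ n ^ 2 := by linear_combination h2
    rw [← h3]
    ring
  rw [sum_congr rfl fun n _ => h1 n]
  have h2 : ∑ x : S, embV S J P γ X (Sum.inr x) ^ 2 = (∑ x ∈ S, X x ^ 2 / P) / S.card := by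
    rw [← Finset.sum_coe_sort S, sum_div]
    refine sum_congr rfl fun x _ => ?_
    simp only [embV]
    rw [div_pow, Real.sq_sqrt (by positivity), div_div]
  rw [h2, ← sum_div, ← add_div]
  congr 1
  rw [sum_comm, ← sum_add_distrib]
  refine sum_congr rfl fun x _ => ?_
  rw [mul_sum]
  congr 1
  exact (Finset.sum_range fun n => P / (2 * Real.pi ^ 2) *
    ((1 - 2 * γ n * Real.cos (2 * Real.pi * ((n : ℝ) + 1) / P * X x) + γ n ^ 2) /
      ((n : ℝ) + 1) ^ 2)).symm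

theorem embV_dist (S : Finset ℕ) (J : ℕ) (P : ℝ) (hP : 0 < P) (γ : ℕ → ℝ) (X Y : ℕ → ℝ) :
    ∑ k, (embV S J P γ X k - embV S J P γ Y k) ^ 2 =
      (∑ x ∈ S, (P / Real.pi ^ 2 * ∑ n ∈ range J,
        (1 - Real.cos (2 * Real.pi * ((n : ℝ) + 1) / P * (X x - Y x))) /
          ((n : ℝ) + 1) ^ 2 + (X x - Y x) ^ 2 / P)) / S.card := by
  rw [Fintype.sum_sum_type, Fintype.sum_prod_type]
  have h1 : ∀ n : Fin J, ∑ y : S × Bool,
      (embV S J P γ X (Sum.inl (n, y)) - embV S J P γ Y (Sum.inl (n, y))) ^ 2 =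
      (∑ x ∈ S, P / Real.pi ^ 2 *
        ((1 - Real.cos (2 * Real.pi * ((n : ℝ) + 1) / P * (X x - Y x))) /
          ((n : ℝ) + 1) ^ 2)) / S.card := by
    intro n
    rw [Fintype.sum_prod_type, ← Finset.sum_coe_sort S, sum_div]
    refine sum_congr rfl fun x _ => ?_
    rw [Fintype.sum_bool]
    simp only [embV]
    rw [← mul_sub, ← mul_sub, mul_pow, mul_pow, div_pow, Real.sq_sqrt (by positivity)]
    rw [mul_sub (2 * Real.pi * ((n : ℝ) + 1) / P), Real.cos_sub]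
    have h2 := Real.sin_sq_add_cos_sq (2 * Real.pi * ((n : ℝ) + 1) / P * X x)
    have h3 := Real.sin_sq_add_cos_sq (2 * Real.pi * ((n : ℝ) + 1) / P * Y x)
    set c := Real.cos (2 * Real.pi * ((n : ℝ) + 1) / P * X x)
    set s := Real.sin (2 * Real.pi * ((n : ℝ) + 1) / P * X x)
    set c' := Real.cos (2 * Real.pi * ((n : ℝ) + 1) / P * Y x)
    set s' := Real.sin (2 * Real.pi * ((n : ℝ) + 1) / P * Y x)
    have h4 : (c - γ n - (c' - γ n)) ^ 2 + (s - s') ^ 2 = 2 * (1 - (c * c' + s * s')) := by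
      linear_combination h2 + h3
    have h5 : P / Real.pi ^ 2 * ((1 - (c * c' + s * s')) / ((n : ℝ) + 1) ^ 2) =
        P / (2 * Real.pi ^ 2) * ((2 * (1 - (c * c' + s * s'))) / ((n : ℝ) + 1) ^ 2) := by
      field_simp
    rw [h5, ← h4]
    ring
  rw [sum_congr rfl fun n _ => h1 n]
  have h2 : ∑ x : S, (embV S J P γ X (Sum.inr x) - embV S J P γ Y (Sum.inr x)) ^ 2 =
      (∑ x ∈ S, (X x - Y x) ^ 2 / P) / S.card := by
    rw [← Finset.sum_coe_sort S, sum_div]
    refine sum_congr rfl fun x _ => ?_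
    simp only [embV]
    rw [← sub_div, div_pow, Real.sq_sqrt (by positivity), div_div]
  rw [h2, ← sum_div, ← add_div]
  congr 1
  rw [sum_comm, ← sum_add_distrib]
  refine sum_congr rfl fun x _ => ?_
  rw [mul_sum]
  congr 1
  exact (Finset.sum_range fun n => P / Real.pi ^ 2 *
    ((1 - Real.cos (2 * Real.pi * ((n : ℝ) + 1) / P * (X x - Y x))) /
      ((n : ℝ) + 1) ^ 2)).symm

/-- The embedding. -/
theorem embed (del : ℝ) (hdel : 0 < del) : ∃ (J : ℕ) (M eps0 : ℝ), 0 < M ∧ 0 < eps0 ∧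
    ∀ S : Finset ℕ, S.Nonempty → ∀ R : ℝ, 0 < R → ∃ d : ℕ,
      ∃ Ψ : (ℕ → ℝ) → EuclideanSpace ℝ (Fin d),
        (∀ X Y : ℕ → ℝ, (∑ x ∈ S, |X x - Y x|) / S.card ≤ ‖Ψ X - Ψ Y‖ ^ 2 + del * R) ∧
        (∀ X : ℕ → ℝ, (∑ x ∈ S, X x ^ 2) / S.card ≤ R ^ 2 →
          (∀ n ∈ Icc 1 J, Real.exp (-((2 * Real.pi * n / M) ^ 2 / 2)) - eps0 ≤
            (∑ x ∈ S, Real.cos (2 * Real.pi * n / (M * R) * X x)) / S.card) →
          ‖Ψ X‖ ^ 2 ≤ (1 / √Real.pi + del) * R) := by
  have hpi := Real.pi_pos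
  set M : ℝ := 2 / del with hM
  have hM0 : 0 < M := by positivity
  obtain ⟨J, hJ⟩ := exists_nat_gt (max 1 (2 * M / (Real.pi ^ 2 * del)))
  have hJ1 : (1 : ℝ) < J := lt_of_le_of_lt (le_max_left _ _) hJ
  have hJ2 : 2 * M / (Real.pi ^ 2 * del) < J := lt_of_le_of_lt (le_max_right _ _) hJ
  have hJn : 1 ≤ J := by
    have : 1 < J := by exact_mod_cast hJ1
    omega
  set eps0 : ℝ := 3 * del / M with heps0
  refine ⟨J, M, eps0, hM0, by positivity, fun S hS R hR => ?_⟩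
  have hS0 : (0 : ℝ) < S.card := by exact_mod_cast hS.card_pos
  set P : ℝ := M * R with hP
  have hP0 : 0 < P := by positivity
  set γ : ℕ → ℝ := fun n => Real.exp (-((2 * Real.pi * ((n : ℝ) + 1) / M) ^ 2 / 2)) with hγ
  let e := Fintype.equivFin ((Fin J × S × Bool) ⊕ S)
  refine ⟨Fintype.card ((Fin J × S × Bool) ⊕ S),
    fun X => WithLp.toLp 2 fun k => embV S J P γ X (e.symm k), ?_, ?_⟩
  · intro X Y
    have h1 : ‖(WithLp.toLp 2 fun k => embV S J P γ X (e.symm k) : EuclideanSpace ℝ (Fin _)) -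
        WithLp.toLp 2 fun k => embV S J P γ Y (e.symm k)‖ ^ 2 =
        ∑ k, (embV S J P γ X k - embV S J P γ Y k) ^ 2 := by
      rw [EuclideanSpace.norm_sq_eq, ← Equiv.sum_comp e.symm]
      refine sum_congr rfl fun k _ => ?_
      rw [Real.norm_eq_abs, sq_abs]
      rfl
    rw [h1, embV_dist S J P hP0 γ X Y]
    have h2 : ∀ x ∈ S, |X x - Y x| ≤ (P / Real.pi ^ 2 * ∑ n ∈ range J,
        (1 - Real.cos (2 * Real.pi * ((n : ℝ) + 1) / P * (X x - Y x))) /
          ((n : ℝ) + 1) ^ 2 + (X x - Y x) ^ 2 / P) + del * R := by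
      intro x _
      have h3 := abs_le_tri (X x - Y x) P hP0 J hJn
      have h4 : 2 * P / (Real.pi ^ 2 * J) ≤ del * R := by
        rw [div_lt_iff₀ (by positivity)] at hJ2
        rw [div_le_iff₀ (by positivity), hP]
        nlinarith
      linarith
    have h5 := sum_le_sum h2
    rw [sum_add_distrib, sum_const, nsmul_eq_mul] at h5
    have h6 := div_le_div_of_nonneg_right h5 hS0.le
    rw [add_div, mul_div_cancel_left₀ _ hS0.ne'] at h6
    exact h6
  · intro X hX hcos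
    have h1 : ‖(WithLp.toLp 2 fun k => embV S J P γ X (e.symm k) : EuclideanSpace ℝ (Fin _))‖ ^ 2 =
        ∑ k, embV S J P γ X k ^ 2 := by
      rw [EuclideanSpace.norm_sq_eq, ← Equiv.sum_comp e.symm]
      refine sum_congr rfl fun k _ => ?_
      rw [Real.norm_eq_abs, sq_abs]
    rw [h1, embV_norm S J P hP0 γ X]
    have h2 : (∑ x ∈ S, (P / (2 * Real.pi ^ 2) * ∑ n ∈ range J,
        (1 - 2 * γ n * Real.cos (2 * Real.pi * ((n : ℝ) + 1) / P * X x) + γ n ^ 2) /
          ((n : ℝ) + 1) ^ 2 + X x ^ 2 / P)) / S.card =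
        P / (2 * Real.pi ^ 2) * ∑ n ∈ range J, (1 - 2 * γ n *
          ((∑ x ∈ S, Real.cos (2 * Real.pi * ((n : ℝ) + 1) / P * X x)) / S.card) + γ n ^ 2) /
          ((n : ℝ) + 1) ^ 2 + (∑ x ∈ S, X x ^ 2) / S.card / P := by
      have hx : ∀ n : ℕ, ∑ x ∈ S,
          (1 - 2 * γ n * Real.cos (2 * Real.pi * ((n : ℝ) + 1) / P * X x) + γ n ^ 2) /
            ((n : ℝ) + 1) ^ 2 = S.card * ((1 - 2 * γ n *
          ((∑ x ∈ S, Real.cos (2 * Real.pi * ((n : ℝ) + 1) / P * X x)) / S.card) + γ n ^ 2) /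
          ((n : ℝ) + 1) ^ 2) := by
        intro n
        rw [← sum_div, sum_add_distrib, sum_sub_distrib, sum_const, sum_const, nsmul_eq_mul,
          nsmul_eq_mul, ← mul_sum]
        field_simp
      rw [sum_add_distrib, ← mul_sum, sum_comm, sum_congr rfl fun n _ => hx n, ← mul_sum, ← sum_div,
        add_div, div_right_comm (∑ x ∈ S, X x ^ 2)]
      congr 1
      rw [mul_left_comm, mul_div_cancel_left₀ _ hS0.ne']
    rw [h2]
    have h3 : ∀ n ∈ range J, (1 - 2 * γ n *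
          ((∑ x ∈ S, Real.cos (2 * Real.pi * ((n : ℝ) + 1) / P * X x)) / S.card) + γ n ^ 2) /
          ((n : ℝ) + 1) ^ 2 ≤
        (1 - Real.exp (-(R ^ 2 * (2 * Real.pi * ((n : ℝ) + 1) / P) ^ 2))) / ((n : ℝ) + 1) ^ 2 +
          2 * eps0 * (1 / ((n : ℝ) + 1) ^ 2) := by
      intro n hn
      have h4 := hcos (n + 1) (by
        rw [mem_range] at hn
        rw [mem_Icc]
        omega)
      push_cast at h4
      have h5 : γ n ^ 2 = Real.exp (-(R ^ 2 * (2 * Real.pi * ((n : ℝ) + 1) / P) ^ 2)) := by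
        rw [hγ, ← Real.exp_nat_mul]
        congr 1
        rw [hP]
        push_cast
        field_simp
      have h6 : γ n - eps0 ≤
          (∑ x ∈ S, Real.cos (2 * Real.pi * ((n : ℝ) + 1) / P * X x)) / S.card := h4
      have h7 : 0 < γ n := Real.exp_pos _
      have h8 : γ n ≤ 1 := by
        rw [hγ]
        refine Real.exp_le_one_iff.2 ?_
        have : 0 ≤ (2 * Real.pi * ((n : ℝ) + 1) / M) ^ 2 / 2 := by positivity
        linarith
      have h9 := mul_le_mul_of_nonneg_left h6 h7.le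
      have he : 0 < eps0 := by positivity
      rw [← h5, mul_one_div, ← add_div]
      refine div_le_div_of_nonneg_right ?_ (by positivity)
      nlinarith [mul_le_mul_of_nonneg_right h8 he.le]
    have h4 := sum_le_sum h3
    rw [sum_add_distrib, ← mul_sum] at h4
    have h5 := mul_le_mul_of_nonneg_left h4 (by positivity : 0 ≤ P / (2 * Real.pi ^ 2))
    have h6 := gauss_le R P hR hP0 J
    have h7 : ∑ n ∈ range J, 1 / ((n : ℝ) + 1) ^ 2 ≤ Real.pi ^ 2 / 6 := by
      have h8 := sum_le_hasSum (range (J + 1)) (fun n _ => by positivity) hasSum_zeta_two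
      rw [sum_range_succ'] at h8
      simp only [Nat.cast_zero, ne_eq, OfNat.ofNat_ne_zero, not_false_eq_true, zero_pow, div_zero,
        add_zero] at h8
      push_cast at h8
      exact h8
    have h8 : P / (2 * Real.pi ^ 2) * (2 * eps0 * ∑ n ∈ range J, 1 / ((n : ℝ) + 1) ^ 2) ≤
        del / 2 * R := by
      have h9 := mul_le_mul_of_nonneg_left h7 (by positivity : 0 ≤ P / (2 * Real.pi ^ 2) * (2 * eps0))
      rw [mul_assoc] at h9
      refine h9.trans (le_of_eq ?_)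
      rw [heps0, hP]
      field_simp
      norm_num
    have h9 : (∑ x ∈ S, X x ^ 2) / S.card / P ≤ del / 2 * R := by
      rw [div_le_iff₀ hP0]
      refine hX.trans (le_of_eq ?_)
      rw [hP, hM]
      field_simp
    rw [mul_add] at h5
    have h10 : (1 / √Real.pi + del) * R = R / √Real.pi + (del / 2 * R + del / 2 * R) := by ring
    rw [h10]
    linarith

end Pool.Agent.W_420c7c_s
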