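import Mathlib

/-! MP_420c7c_nt, theorem (S): the energy decrement.

A minimiser `G` of `Phi G = Sum_i lam_i Var_i G / rho_i^2 - kap ln #G`; partitions into at most
`4 ^ #I` cells. -/

set_option autoImplicit false
set_option maxHeartbeats 1000000
open Finset

namespace Pool.Agent.W_420c7c_s

section one

variable {Om E : Type*} [NormedAddCommGroup E] [InnerProductSpace ℝ E]

/-- the mean of `Psi` over `G` -/
noncomputable def mn (Ψ : Om → E) (G : Finset Om) : E := (G.card : ℝ)⁻¹ • ∑ c ∈ G, Ψ c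

/-- the sum of the squared distances to the mean -/
noncomputable def sv (Ψ : Om → E) (G : Finset Om) : ℝ := ∑ c ∈ G, ‖Ψ c - mn Ψ G‖ ^ 2

theorem sum_sub_mn (Ψ : Om → E) {G : Finset Om} (hG : G.Nonempty) :
    ∑ c ∈ G, (Ψ c - mn Ψ G) = 0 := by
  have h : (G.card : ℝ) ≠ 0 := by exact_mod_cast hG.card_pos.ne'
  rw [sum_sub_distrib, sum_const, mn, ← Nat.cast_smul_eq_nsmul ℝ, smul_smul, mul_inv_cancel₀ h,
    one_smul, sub_self]

/-- shift formula -/
theorem sum_shift (Ψ : Om → E) {G : Finset Om} (hG : G.Nonempty) (m : E) :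
    ∑ c ∈ G, ‖Ψ c - m‖ ^ 2 = sv Ψ G + G.card * ‖mn Ψ G - m‖ ^ 2 := by
  have h1 : ∀ c, ‖Ψ c - m‖ ^ 2 = ‖Ψ c - mn Ψ G‖ ^ 2 + 2 * inner ℝ (Ψ c - mn Ψ G) (mn Ψ G - m) +
      ‖mn Ψ G - m‖ ^ 2 := by
    intro c
    rw [← norm_add_sq_real]
    congr 2
    abel
  simp only [h1]
  rw [sum_add_distrib, sum_add_distrib, ← mul_sum, ← sum_inner, sum_sub_mn Ψ hG, inner_zero_left,
    mul_zero, add_zero, sum_const, nsmul_eq_mul]
  rfl

theorem sv_nonneg (Ψ : Om → E) (G : Finset Om) : 0 ≤ sv Ψ G :=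
  sum_nonneg fun _ _ => sq_nonneg _

theorem sv_le (Ψ : Om → E) {G : Finset Om} (hG : G.Nonempty) {ρ : ℝ}
    (h : ∀ c ∈ G, ‖Ψ c‖ ^ 2 ≤ ρ ^ 2) : sv Ψ G ≤ G.card * ρ ^ 2 := by
  have h1 := sum_shift Ψ hG 0
  have h2 : ∑ c ∈ G, ‖Ψ c - 0‖ ^ 2 ≤ ∑ c ∈ G, ρ ^ 2 :=
    sum_le_sum fun c hc => by rw [sub_zero]; exact h c hc
  rw [sum_const, nsmul_eq_mul] at h2
  have h3 : 0 ≤ (G.card : ℝ) * ‖mn Ψ G - 0‖ ^ 2 := by positivity
  linarith

theorem norm_mn_le (Ψ : Om → E) {G : Finset Om} (hG : G.Nonempty) {ρ : ℝ} (hρ : 0 ≤ ρ)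
    (h : ∀ c ∈ G, ‖Ψ c‖ ^ 2 ≤ ρ ^ 2) : ‖mn Ψ G‖ ≤ ρ := by
  have h0 : (0 : ℝ) < G.card := by exact_mod_cast hG.card_pos
  have h1 := sum_shift Ψ hG 0
  have h2 : ∑ c ∈ G, ‖Ψ c - 0‖ ^ 2 ≤ ∑ c ∈ G, ρ ^ 2 :=
    sum_le_sum fun c hc => by rw [sub_zero]; exact h c hc
  rw [sum_const, nsmul_eq_mul] at h2
  have h3 := sv_nonneg Ψ G
  rw [sub_zero] at h1
  have h4 : (G.card : ℝ) * ‖mn Ψ G‖ ^ 2 ≤ G.card * ρ ^ 2 := by linarith
  have h5 : ‖mn Ψ G‖ ^ 2 ≤ ρ ^ 2 := le_of_mul_le_mul_left h4 h0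
  exact abs_le_of_sq_le_sq' h5 hρ |>.2

/-- the between cell variance -/
theorem between_eq (Ψ : Om → E) (G : Finset Om) {T : Type*} [Fintype T]
    [DecidableEq T] (l : Om → T) :
    sv Ψ G - ∑ t, sv Ψ (G.filter fun c => l c = t) =
      ∑ t, ((G.filter fun c => l c = t).card : ℝ) *
        ‖mn Ψ (G.filter fun c => l c = t) - mn Ψ G‖ ^ 2 := by
  have h2 : sv Ψ G = ∑ t, ∑ c ∈ G.filter (fun c => l c = t), ‖Ψ c - mn Ψ G‖ ^ 2 := by
    rw [sv]
    exact (sum_fiberwise _ _ _).symm
  rw [h2, ← sum_sub_distrib]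
  refine sum_congr rfl fun t _ => ?_
  rcases (G.filter fun c => l c = t).eq_empty_or_nonempty with h3 | h3
  · rw [h3]
    simp [sv]
  · rw [sum_shift Ψ h3]
    ring

theorem between_nonneg (Ψ : Om → E) (G : Finset Om) {T : Type*} [Fintype T]
    [DecidableEq T] (l : Om → T) : 0 ≤ sv Ψ G - ∑ t, sv Ψ (G.filter fun c => l c = t) := by
  rw [between_eq]
  exact sum_nonneg fun t _ => by positivity

/-- Partition inequality for one map: the between cell variance detects a direction `u`. -/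
theorem between (Ψ : Om → E) {G : Finset Om} {T : Type*} [Fintype T]
    [DecidableEq T] (l : Om → T) (u : E) (a : ℝ) (ha : 0 ≤ a) (bad : T → Prop) [DecidablePred bad]
    (hbad : ∀ c ∈ G, bad (l c) → inner ℝ (Ψ c - mn Ψ G) u < -a) :
    ((G.filter fun c => bad (l c)).card : ℝ) * a ^ 2 ≤
      (sv Ψ G - ∑ t, sv Ψ (G.filter fun c => l c = t)) * ‖u‖ ^ 2 := by
  rw [between_eq, sum_mul]
  have h4 : ((G.filter fun c => bad (l c)).card : ℝ) * a ^ 2 =
      ∑ t, if bad t then ((G.filter fun c => l c = t).card : ℝ) * a ^ 2 else 0 := by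
    have h5 : (G.filter fun c => bad (l c)).card =
        ∑ t, if bad t then (G.filter fun c => l c = t).card else 0 := by
      rw [card_eq_sum_card_fiberwise (f := l) (t := univ) (fun _ _ => mem_univ _)]
      refine sum_congr rfl fun t _ => ?_
      split_ifs with h6
      · congr 1
        ext c
        simp only [mem_filter]
        constructor
        · rintro ⟨⟨h7, h8⟩, h9⟩
          exact ⟨h7, h9⟩
        · rintro ⟨h7, h9⟩
          exact ⟨⟨h7, by rw [h9]; exact h6⟩, h9⟩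
      · rw [card_eq_zero, filter_eq_empty_iff]
        intro c hc h9
        exact h6 (h9 ▸ (mem_filter.1 hc).2)
    rw [h5]
    push_cast
    rw [sum_mul]
    refine sum_congr rfl fun t _ => ?_
    split_ifs
    · rfl
    · rw [zero_mul]
  rw [h4]
  refine sum_le_sum fun t _ => ?_
  split_ifs with h5
  · rcases (G.filter fun c => l c = t).eq_empty_or_nonempty with h3 | h3
    · rw [h3]
      simp
    · rw [mul_assoc]
      refine mul_le_mul_of_nonneg_left ?_ (Nat.cast_nonneg _)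
      set G' := G.filter fun c => l c = t with hG'
      have h0 : (0 : ℝ) < G'.card := by exact_mod_cast h3.card_pos
      have h6 : (G'.card : ℝ) * inner ℝ (mn Ψ G' - mn Ψ G) u = ∑ c ∈ G', inner ℝ (Ψ c - mn Ψ G) u := by
        have h12 : ∑ c ∈ G', (Ψ c - mn Ψ G) = (G'.card : ℝ) • (mn Ψ G' - mn Ψ G) := by
          rw [sum_sub_distrib, sum_const, smul_sub]
          congr 1
          · rw [mn, smul_smul, mul_inv_cancel₀ h0.ne', one_smul]
          · rw [Nat.cast_smul_eq_nsmul]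
        rw [← sum_inner, h12, real_inner_smul_left]
      have h7 : ∑ c ∈ G', inner ℝ (Ψ c - mn Ψ G) u ≤ ∑ c ∈ G', -a := by
        refine sum_le_sum fun c hc => ?_
        rw [hG', mem_filter] at hc
        exact (hbad c hc.1 (by rw [hc.2]; exact h5)).le
      rw [sum_const, nsmul_eq_mul, ← h6] at h7
      have h8 : inner ℝ (mn Ψ G' - mn Ψ G) u ≤ -a := le_of_mul_le_mul_left h7 h0
      have h9 := abs_real_inner_le_norm (mn Ψ G' - mn Ψ G) u
      have h10 : a ≤ ‖mn Ψ G' - mn Ψ G‖ * ‖u‖ := by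
        have h11 := neg_abs_le (inner ℝ (mn Ψ G' - mn Ψ G) u)
        linarith
      calc a ^ 2 ≤ (‖mn Ψ G' - mn Ψ G‖ * ‖u‖) ^ 2 := pow_le_pow_left₀ ha h10 2
        _ = ‖mn Ψ G' - mn Ψ G‖ ^ 2 * ‖u‖ ^ 2 := by ring
  · positivity

end one

/-- entropy of a partition -/
theorem ent_le {Om : Type*} {G : Finset Om} (hG : G.Nonempty) {T : Type*} [Fintype T]
    [DecidableEq T] (l : Om → T) :
    ∑ t, ((G.filter fun c => l c = t).card : ℝ) *
      (Real.log G.card - Real.log (G.filter fun c => l c = t).card) ≤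
      G.card * Real.log (Fintype.card T) := by
  obtain ⟨c0, hc0⟩ := hG
  have hG : G.Nonempty := ⟨c0, hc0⟩
  have hT : (0 : ℝ) < Fintype.card T := by
    have : Nonempty T := ⟨l c0⟩
    exact_mod_cast Fintype.card_pos
  have h0 : (0 : ℝ) < G.card := by exact_mod_cast hG.card_pos
  have h1 : ∀ t, ((G.filter fun c => l c = t).card : ℝ) *
      (Real.log G.card - Real.log (G.filter fun c => l c = t).card) ≤
      ((G.filter fun c => l c = t).card : ℝ) * Real.log (Fintype.card T) +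
        (G.card / Fintype.card T - (G.filter fun c => l c = t).card) := by
    intro t
    set k : ℝ := ((G.filter fun c => l c = t).card : ℝ) with hk
    have hk0 : 0 ≤ k := Nat.cast_nonneg _
    rcases hk0.eq_or_lt with h2 | h2
    · rw [← h2]
      simp
      positivity
    · have h3 := Real.log_le_sub_one_of_pos (x := G.card / (k * Fintype.card T)) (by positivity)
      rw [Real.log_div (by positivity) (by positivity), Real.log_mul (by positivity)
        (by positivity)] at h3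
      have h4 := mul_le_mul_of_nonneg_left h3 h2.le
      have h5 : k * (G.card / (k * Fintype.card T) - 1) = G.card / Fintype.card T - k := by
        field_simp
      rw [h5] at h4
      linarith
  refine (sum_le_sum fun t _ => h1 t).trans (le_of_eq ?_)
  rw [sum_add_distrib, sum_sub_distrib, ← sum_mul, sum_const, card_univ, nsmul_eq_mul]
  have h2 : ∑ t, ((G.filter fun c => l c = t).card : ℝ) = G.card := by
    rw [← Nat.cast_sum]
    congr 1
    exact (card_eq_sum_card_fiberwise (f := l) (t := univ) (fun _ _ => mem_univ _)).symm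
  rw [h2]
  field_simp
  ring

theorem edl_pair {E : Type*} [NormedAddCommGroup E] [InnerProductSpace ℝ E] {x y m : E} {ρ ε : ℝ}
    (hx : ‖x‖ ^ 2 ≤ ρ ^ 2) (hy : ‖y‖ ^ 2 ≤ ρ ^ 2) (h1 : -(ε * ρ ^ 2) ≤ inner ℝ (x - m) (y - m))
    (h2 : -(ε * ρ ^ 2) ≤ inner ℝ (x - m) m) (h3 : -(ε * ρ ^ 2) ≤ inner ℝ (y - m) m) :
    ‖x - y‖ ^ 2 ≤ 2 * (1 + 3 * ε) * ρ ^ 2 := by
  have e1 : ‖x - y‖ ^ 2 = ‖x - m‖ ^ 2 - 2 * inner ℝ (x - m) (y - m) + ‖y - m‖ ^ 2 := by
    rw [← norm_sub_sq_real]
    congr 2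
    abel
  have e2 : ‖x‖ ^ 2 = ‖x - m‖ ^ 2 + 2 * inner ℝ (x - m) m + ‖m‖ ^ 2 := by
    rw [← norm_add_sq_real]
    congr 2
    abel
  have e3 : ‖y‖ ^ 2 = ‖y - m‖ ^ 2 + 2 * inner ℝ (y - m) m + ‖m‖ ^ 2 := by
    rw [← norm_add_sq_real]
    congr 2
    abel
  have h4 : 0 ≤ ‖m‖ ^ 2 := by positivity
  rw [e1]
  linarith

/-- The energy decrement lemma. -/
theorem edl {Om I : Type*} [Fintype I] {E : I → Type*} [∀ i, NormedAddCommGroup (E i)]
    [∀ i, InnerProductSpace ℝ (E i)] (Ψ : ∀ i, Om → E i) (F : Finset Om) (lam rho : I → ℝ)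
    (hlam : ∀ i, 0 ≤ lam i) (hrho : ∀ i, 0 < rho i) (hΨ : ∀ i, ∀ c ∈ F, ‖Ψ i c‖ ^ 2 ≤ rho i ^ 2)
    (kap eps : ℝ) (hkap : 0 < kap) (heps : 0 < eps)
    (hF : Real.exp (1 + (∑ i, lam i) / kap) ≤ F.card) :
    ∃ c ∈ F, ∃ c' ∈ F, c ≠ c' ∧
      ∑ i, (if 2 * (1 + 3 * eps) * rho i ^ 2 < ‖Ψ i c - Ψ i c'‖ ^ 2 then lam i else 0) ≤
        48 * kap * Fintype.card I / eps ^ 2 := by
  classical
  set Λ := ∑ i, lam i with hΛ
  have hΛ0 : 0 ≤ Λ := sum_nonneg fun i _ => hlam i
  have hF0 : (0 : ℝ) < F.card := lt_of_lt_of_le (Real.exp_pos _) hF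
  have hFne : F.Nonempty := card_pos.1 (by exact_mod_cast hF0)
  -- the functional and its minimiser
  let Φ : Finset Om → ℝ := fun G =>
    ∑ i, lam i * (sv (Ψ i) G / (G.card * rho i ^ 2)) - kap * Real.log G.card
  obtain ⟨G, hG, hmin⟩ := exists_min_image (F.powerset.filter fun G => G.Nonempty) Φ
    ⟨F, by simp [hFne]⟩
  rw [mem_filter, mem_powerset] at hG
  obtain ⟨hGF, hGne⟩ := hG
  have hG0 : (0 : ℝ) < G.card := by exact_mod_cast hGne.card_pos
  have hΨG : ∀ i, ∀ c ∈ G, ‖Ψ i c‖ ^ 2 ≤ rho i ^ 2 := fun i c hc => hΨ i c (hGF hc)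
  -- the size of G
  have hsize : 1 ≤ Real.log G.card := by
    have h1 : Φ G ≤ Φ F := hmin F (by simp [hFne])
    have h2 : Φ F ≤ Λ - kap * Real.log F.card := by
      refine sub_le_sub_right (sum_le_sum fun i _ => ?_) _
      have h3 := sv_le (Ψ i) hFne (hΨ i)
      have h4 : sv (Ψ i) F / (F.card * rho i ^ 2) ≤ 1 :=
        (div_le_one (mul_pos hF0 (pow_pos (hrho i) 2))).2 h3
      exact mul_le_of_le_one_right (hlam i) h4
    have h3 : -(kap * Real.log G.card) ≤ Φ G := by
      have h4 : 0 ≤ ∑ i, lam i * (sv (Ψ i) G / (G.card * rho i ^ 2)) :=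
        sum_nonneg fun i _ => mul_nonneg (hlam i) (div_nonneg (sv_nonneg _ _) (by positivity))
      simp only [Φ]
      linarith
    have h4 : 1 + Λ / kap ≤ Real.log F.card := (Real.le_log_iff_exp_le hF0).2 hF
    have h5 : kap * (1 + Λ / kap) = kap + Λ := by field_simp
    have h6 := mul_le_mul_of_nonneg_left h4 hkap.le
    rw [h5] at h6
    have h7 : kap * 1 ≤ kap * Real.log G.card := by linarith
    exact le_of_mul_le_mul_left h7 hkap
  have hG3 : (3 : ℝ) ≤ G.card := by
    have h1 : Real.exp 1 ≤ G.card := (Real.le_log_iff_exp_le hG0).1 hsize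
    have h2 : (2 : ℝ) < G.card := by
      have h3 := Real.add_one_lt_exp (x := 1) one_ne_zero
      linarith
    have h3 : 2 < G.card := by exact_mod_cast h2
    exact_mod_cast h3
  -- deviations and witnesses
  let v : ∀ i, Om → E i := fun i c => Ψ i c - mn (Ψ i) G
  have hwit : ∀ i, ∃ w ∈ G, ∀ c' ∈ G,
      (G.filter fun c => inner ℝ (v i c) (v i c') < -(eps * rho i ^ 2)).card ≤
        (G.filter fun c => inner ℝ (v i c) (v i w) < -(eps * rho i ^ 2)).card := fun i =>
    exists_max_image G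
      (fun c' => (G.filter fun c => inner ℝ (v i c) (v i c') < -(eps * rho i ^ 2)).card) hGne
  choose wit hwitG hwitmax using hwit
  let l : Om → I → Bool × Bool := fun c i =>
    (decide (inner ℝ (v i c) (v i (wit i)) < -(eps * rho i ^ 2)),
      decide (inner ℝ (v i c) (mn (Ψ i) G) < -(eps * rho i ^ 2)))
  have hcardT : Real.log (Fintype.card (I → Bool × Bool)) = Fintype.card I * Real.log 4 := by
    rw [Fintype.card_fun, Fintype.card_prod, Fintype.card_bool]
    push_cast
    rw [Real.log_pow]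
  -- minimality
  set B : I → ℝ := fun i => sv (Ψ i) G - ∑ t, sv (Ψ i) (G.filter fun c => l c = t) with hB
  have hmain : ∑ i, lam i * (B i / rho i ^ 2) ≤ kap * (G.card * (Fintype.card I * Real.log 4)) := by
    have h1 : ∀ t, ((G.filter fun c => l c = t).card : ℝ) * Φ G ≤
        ∑ i, lam i * (sv (Ψ i) (G.filter fun c => l c = t) / rho i ^ 2) -
          kap * ((G.filter fun c => l c = t).card * Real.log (G.filter fun c => l c = t).card) := by
      intro t
      rcases (G.filter fun c => l c = t).eq_empty_or_nonempty with h2 | h2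
      · rw [h2]
        simp [sv]
      · have h3 := hmin (G.filter fun c => l c = t) (by
          rw [mem_filter, mem_powerset]
          exact ⟨(filter_subset _ _).trans hGF, h2⟩)
        have h4 : (0 : ℝ) < (G.filter fun c => l c = t).card := by exact_mod_cast h2.card_pos
        refine (mul_le_mul_of_nonneg_left h3 h4.le).trans (le_of_eq ?_)
        simp only [Φ]
        rw [mul_sub, mul_sum]
        congr 1
        · refine sum_congr rfl fun i _ => ?_
          have h5 := (hrho i).ne'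
          field_simp
        · ring
    have h2 := sum_le_sum fun t (_ : t ∈ (univ : Finset (I → Bool × Bool))) => h1 t
    rw [← sum_mul, sum_sub_distrib, ← mul_sum, sum_comm] at h2
    have h3 : ∑ t, ((G.filter fun c => l c = t).card : ℝ) = G.card := by
      rw [← Nat.cast_sum]
      congr 1
      exact (card_eq_sum_card_fiberwise (f := l) (t := univ) (fun _ _ => mem_univ _)).symm
    rw [h3] at h2
    have h4 : (G.card : ℝ) * Φ G = ∑ i, lam i * (sv (Ψ i) G / rho i ^ 2) -
        kap * (G.card * Real.log G.card) := by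
      simp only [Φ]
      rw [mul_sub, mul_sum]
      congr 1
      · refine sum_congr rfl fun i _ => ?_
        have h5 := (hrho i).ne'
        field_simp
      · ring
    rw [h4] at h2
    have h5 := ent_le hGne l
    rw [hcardT] at h5
    have h6 : ∑ i, lam i * (B i / rho i ^ 2) = ∑ i, lam i * (sv (Ψ i) G / rho i ^ 2) -
        ∑ i, ∑ t, lam i * (sv (Ψ i) (G.filter fun c => l c = t) / rho i ^ 2) := by
      rw [← sum_sub_distrib]
      refine sum_congr rfl fun i _ => ?_
      rw [hB, ← mul_sum, ← sum_div]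
      ring
    have h7 : ∑ t, ((G.filter fun c => l c = t).card : ℝ) *
        (Real.log G.card - Real.log (G.filter fun c => l c = t).card) =
        G.card * Real.log G.card - ∑ t, ((G.filter fun c => l c = t).card : ℝ) *
          Real.log (G.filter fun c => l c = t).card := by
      simp only [mul_sub]
      rw [sum_sub_distrib, ← sum_mul, h3]
    rw [h7] at h5
    have h8 := mul_le_mul_of_nonneg_left h5 hkap.le
    rw [h6]
    linarith
  have hB0 : ∀ i, 0 ≤ B i := fun i => between_nonneg (Ψ i) G l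
  have hb1 : ∀ i, ((G.filter fun c => inner ℝ (v i c) (v i (wit i)) < -(eps * rho i ^ 2)).card : ℝ) *
      eps ^ 2 ≤ 4 * (B i / rho i ^ 2) := by
    intro i
    have hr := hrho i
    have h1 := between (Ψ i) l (v i (wit i)) (eps * rho i ^ 2) (by positivity)
      (fun t => (t i).1 = true) (fun c _ h => by simpa [l] using h)
    have h2 : (G.filter fun c => (l c i).1 = true) =
        G.filter fun c => inner ℝ (v i c) (v i (wit i)) < -(eps * rho i ^ 2) := by
      refine filter_congr fun c _ => ?_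
      simp [l]
    rw [h2] at h1
    have h3 : ‖v i (wit i)‖ ≤ 2 * rho i := by
      have h4 : ‖Ψ i (wit i)‖ ≤ rho i :=
        (abs_le_of_sq_le_sq' (hΨG i _ (hwitG i)) hr.le).2
      have h5 := norm_mn_le (Ψ i) hGne hr.le (hΨG i)
      exact (norm_sub_le _ _).trans (by linarith)
    have h6 : ‖v i (wit i)‖ ^ 2 ≤ 4 * rho i ^ 2 := by
      have h7 := pow_le_pow_left₀ (norm_nonneg _) h3 2
      have h8 : (2 * rho i) ^ 2 = 4 * rho i ^ 2 := by ring
      rwa [h8] at h7
    have h7 := h1.trans (mul_le_mul_of_nonneg_left h6 (hB0 i))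
    have h8 : 0 < rho i ^ 2 := by positivity
    have h9 : 4 * (B i / rho i ^ 2) = (B i * (4 * rho i ^ 2)) / (rho i ^ 2) ^ 2 := by
      field_simp
    rw [h9, le_div_iff₀ (by positivity)]
    refine le_trans (le_of_eq ?_) h7
    ring
  have hb2 : ∀ i, ((G.filter fun c => inner ℝ (v i c) (mn (Ψ i) G) < -(eps * rho i ^ 2)).card : ℝ) *
      eps ^ 2 ≤ 4 * (B i / rho i ^ 2) := by
    intro i
    have hr := hrho i
    have h1 := between (Ψ i) l (mn (Ψ i) G) (eps * rho i ^ 2) (by positivity)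
      (fun t => (t i).2 = true) (fun c _ h => by simpa [l] using h)
    have h2 : (G.filter fun c => (l c i).2 = true) =
        G.filter fun c => inner ℝ (v i c) (mn (Ψ i) G) < -(eps * rho i ^ 2) := by
      refine filter_congr fun c _ => ?_
      simp [l]
    rw [h2] at h1
    have h6 : ‖mn (Ψ i) G‖ ^ 2 ≤ 4 * rho i ^ 2 := by
      have h7 := pow_le_pow_left₀ (norm_nonneg _) (norm_mn_le (Ψ i) hGne hr.le (hΨG i)) 2
      nlinarith [sq_nonneg (rho i)]
    have h7 := h1.trans (mul_le_mul_of_nonneg_left h6 (hB0 i))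
    have h8 : 0 < rho i ^ 2 := by positivity
    have h9 : 4 * (B i / rho i ^ 2) = (B i * (4 * rho i ^ 2)) / (rho i ^ 2) ^ 2 := by
      field_simp
    rw [h9, le_div_iff₀ (by positivity)]
    refine le_trans (le_of_eq ?_) h7
    ring
  -- the bad pairs
  let val : Om → Om → ℝ := fun c c' =>
    ∑ i, (if 2 * (1 + 3 * eps) * rho i ^ 2 < ‖Ψ i c - Ψ i c'‖ ^ 2 then lam i else 0)
  have hval0 : ∀ c c', 0 ≤ val c c' := fun c c' => sum_nonneg fun i _ => by
    split_ifs
    · exact hlam i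
    · exact le_rfl
  let A1 : I → Om → Om → ℝ := fun i c c' =>
    if inner ℝ (v i c) (v i c') < -(eps * rho i ^ 2) then 1 else 0
  let A2 : I → Om → ℝ := fun i c =>
    if inner ℝ (v i c) (mn (Ψ i) G) < -(eps * rho i ^ 2) then 1 else 0
  have hpt : ∀ c ∈ G, ∀ c' ∈ G, val c c' ≤ ∑ i, lam i * (A1 i c c' + A2 i c + A2 i c') := by
    intro c hc c' hc'
    refine sum_le_sum fun i _ => ?_
    have hA1 : 0 ≤ A1 i c c' := by
      simp only [A1]
      split_ifs <;> norm_num
    have hA2 : ∀ c, 0 ≤ A2 i c := by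
      intro c
      simp only [A2]
      split_ifs <;> norm_num
    split_ifs with h1
    · have h2 : 1 ≤ A1 i c c' + A2 i c + A2 i c' := by
        by_contra h3
        have h3 := not_le.1 h3
        have ha1 : ¬ inner ℝ (v i c) (v i c') < -(eps * rho i ^ 2) := by
          intro h4
          have h5 : A1 i c c' = 1 := if_pos h4
          linarith [hA2 c, hA2 c']
        have ha2 : ¬ inner ℝ (v i c) (mn (Ψ i) G) < -(eps * rho i ^ 2) := by
          intro h4
          have h5 : A2 i c = 1 := if_pos h4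
          linarith [hA2 c']
        have ha3 : ¬ inner ℝ (v i c') (mn (Ψ i) G) < -(eps * rho i ^ 2) := by
          intro h4
          have h5 : A2 i c' = 1 := if_pos h4
          linarith [hA2 c]
        exact absurd (edl_pair (hΨG i c hc) (hΨG i c' hc') (not_lt.1 ha1) (not_lt.1 ha2)
          (not_lt.1 ha3)) (not_le.2 h1)
      exact le_mul_of_one_le_right (hlam i) h2
    · exact mul_nonneg (hlam i) (by linarith [hA2 c, hA2 c'])
  have htot : ∑ c ∈ G, ∑ c' ∈ G, val c c' ≤
      (G.card : ℝ) * (12 / eps ^ 2 * (kap * (G.card * (Fintype.card I * Real.log 4)))) := by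
    have h1 : ∑ c ∈ G, ∑ c' ∈ G, val c c' ≤
        ∑ c ∈ G, ∑ c' ∈ G, ∑ i, lam i * (A1 i c c' + A2 i c + A2 i c') :=
      sum_le_sum fun c hc => sum_le_sum fun c' hc' => hpt c hc c' hc'
    have h2 : ∑ c ∈ G, ∑ c' ∈ G, ∑ i, lam i * (A1 i c c' + A2 i c + A2 i c') =
        ∑ i, lam i * (∑ c' ∈ G, ∑ c ∈ G, A1 i c c' + 2 * (G.card * ∑ c ∈ G, A2 i c)) := by
      rw [sum_congr rfl fun c _ => sum_comm, sum_comm]
      refine sum_congr rfl fun i _ => ?_
      simp only [← mul_sum]
      congr 1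
      simp only [sum_add_distrib, sum_const, nsmul_eq_mul]
      rw [sum_comm, ← mul_sum]
      ring
    rw [h2] at h1
    refine h1.trans ?_
    have h3 : ∀ i, ∑ c' ∈ G, ∑ c ∈ G, A1 i c c' + 2 * (G.card * ∑ c ∈ G, A2 i c) ≤
        G.card * (12 / eps ^ 2 * (B i / rho i ^ 2)) := by
      intro i
      have h4 : ∀ c' ∈ G, ∑ c ∈ G, A1 i c c' ≤ 4 / eps ^ 2 * (B i / rho i ^ 2) := by
        intro c' hc'
        have h5 : ∑ c ∈ G, A1 i c c' =
            ((G.filter fun c => inner ℝ (v i c) (v i c') < -(eps * rho i ^ 2)).card : ℝ) := by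
          simp only [A1]
          rw [sum_boole]
        rw [h5]
        have h6 : ((G.filter fun c => inner ℝ (v i c) (v i c') < -(eps * rho i ^ 2)).card : ℝ) ≤
            ((G.filter fun c => inner ℝ (v i c) (v i (wit i)) < -(eps * rho i ^ 2)).card : ℝ) := by
          exact_mod_cast hwitmax i c' hc'
        refine h6.trans ?_
        have h7 : 4 / eps ^ 2 * (B i / rho i ^ 2) = 4 * (B i / rho i ^ 2) / eps ^ 2 := by ring
        rw [h7, le_div_iff₀ (by positivity)]
        exact hb1 i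
      have h5 : ∑ c ∈ G, A2 i c ≤ 4 / eps ^ 2 * (B i / rho i ^ 2) := by
        have h5 : ∑ c ∈ G, A2 i c =
            ((G.filter fun c => inner ℝ (v i c) (mn (Ψ i) G) < -(eps * rho i ^ 2)).card : ℝ) := by
          simp only [A2]
          rw [sum_boole]
        rw [h5]
        have h7 : 4 / eps ^ 2 * (B i / rho i ^ 2) = 4 * (B i / rho i ^ 2) / eps ^ 2 := by ring
        rw [h7, le_div_iff₀ (by positivity)]
        exact hb2 i
      have h6 := sum_le_sum h4
      rw [sum_const, nsmul_eq_mul] at h6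
      have h7 := mul_le_mul_of_nonneg_left h5 hG0.le
      have h8 : (G.card : ℝ) * (12 / eps ^ 2 * (B i / rho i ^ 2)) =
          G.card * (4 / eps ^ 2 * (B i / rho i ^ 2)) +
            2 * (G.card * (4 / eps ^ 2 * (B i / rho i ^ 2))) := by ring
      rw [h8]
      linarith
    have h4 : ∑ i, lam i * (∑ c' ∈ G, ∑ c ∈ G, A1 i c c' + 2 * (G.card * ∑ c ∈ G, A2 i c)) ≤
        (G.card : ℝ) * (12 / eps ^ 2 * ∑ i, lam i * (B i / rho i ^ 2)) := by
      rw [mul_sum, mul_sum]
      refine sum_le_sum fun i _ => ?_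
      refine (mul_le_mul_of_nonneg_left (h3 i) (hlam i)).trans (le_of_eq ?_)
      ring
    refine h4.trans (mul_le_mul_of_nonneg_left (mul_le_mul_of_nonneg_left hmain (by positivity))
      hG0.le)
  -- conclusion
  by_contra hcon
  push Not at hcon
  set V := 48 * kap * Fintype.card I / eps ^ 2 with hV
  have hV0 : 0 ≤ V := by positivity
  have h1 : ∀ c ∈ G, ∀ c' ∈ G, c ≠ c' → V < val c c' := fun c hc c' hc' hne =>
    hcon c (hGF hc) c' (hGF hc') hne
  have h2 : ∑ x ∈ G.offDiag, V < ∑ x ∈ G.offDiag, val x.1 x.2 := by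
    refine sum_lt_sum_of_nonempty ?_ fun x hx => ?_
    · rw [← card_pos, offDiag_card]
      have h3 : 3 ≤ G.card := by exact_mod_cast hG3
      have h4 : G.card < G.card * G.card := by nlinarith
      omega
    · rw [mem_offDiag] at hx
      exact h1 _ hx.1 _ hx.2.1 hx.2.2
  have h3 : ∑ x ∈ G.offDiag, val x.1 x.2 ≤ ∑ c ∈ G, ∑ c' ∈ G, val c c' := by
    rw [← sum_product' G G val]
    refine sum_le_sum_of_subset_of_nonneg ?_ fun x _ _ => hval0 _ _
    intro x hx
    rw [mem_offDiag] at hx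
    exact mem_product.2 ⟨hx.1, hx.2.1⟩
  rw [sum_const, offDiag_card, nsmul_eq_mul, Nat.cast_sub (Nat.le_mul_self _)] at h2
  push_cast at h2
  have h4 : (G.card : ℝ) * (12 / eps ^ 2 * (kap * (G.card * (Fintype.card I * Real.log 4)))) =
      Real.log 4 / 4 * (G.card * G.card * V) := by
    rw [hV]
    ring
  rw [h4] at htot
  have h5 : Real.log 4 < 2 := by
    have h6 : Real.log 4 = 2 * Real.log 2 := by
      rw [show (4 : ℝ) = 2 ^ 2 by norm_num, Real.log_pow]
      norm_num
    have := Real.log_two_lt_d9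
    rw [h6]
    linarith
  have h6 : (0 : ℝ) ≤ G.card * G.card * V := by positivity
  have h7 : Real.log 4 / 4 * (G.card * G.card * V) ≤ 1 / 2 * (G.card * G.card * V) :=
    mul_le_mul_of_nonneg_right (by linarith) h6
  have h8 : (G.card : ℝ) ≤ G.card * G.card / 3 := by nlinarith
  have h9 : ((G.card : ℝ) * G.card - G.card) * V < 1 / 2 * (G.card * G.card * V) := by linarith
  have h10 := mul_le_mul_of_nonneg_right h8 hV0
  nlinarith

end Pool.Agent.W_420c7c_s
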