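import Pool.Agent.W_420c7c_s.Stat

/-! MP_420c7c_nt, theorem (S): the two Chebyshev bounds, in the form used for the moduli `r`. -/

set_option autoImplicit false
set_option maxHeartbeats 1000000
open Finset

namespace Pool.Agent.W_420c7c_s

/-- half of the sign of a bit -/
noncomputable def hf (b : Bool) : ℝ := if b then 1 / 2 else -1 / 2

theorem hf_eq (b : Bool) : hf b = sg b / 2 := by
  unfold hf sg
  split_ifs <;> ring

theorem av_coe (S : Finset ℕ) (f : ℕ → ℝ) :
    av (fun x : S => f x) = (∑ x ∈ S, f x) / S.card := by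
  unfold av
  rw [Finset.sum_coe_sort S f, Fintype.card_coe]

theorem XX_hf {ι : Type*} [Fintype ι] (S : Finset ℕ) (a : ι → ℕ → ℝ) (w : ι → Bool) (x : S) :
    XX (fun i (x : S) => a i x) w x = ∑ i, hf (w i) * a i x := by
  unfold XX
  rw [sum_div]
  refine sum_congr rfl fun i _ => ?_
  rw [hf_eq]
  ring

/-- variance of the quadratic statistic, second form -/
theorem var_sq' {ι G : Type*} [Fintype ι] [Fintype G] [Nonempty G] [DecidableEq ι] (a : ι → G → ℝ)
    (Γ : ℝ) (hΓ0 : 0 ≤ Γ) (hΓ : Op a Γ) :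
    av (fun w : ι → Bool => (av fun x => XX a w x ^ 2) ^ 2) -
      (av fun w : ι → Bool => av fun x => XX a w x ^ 2) ^ 2 ≤
      Γ * ∑ i, av fun x => a i x ^ 2 := by
  refine (poincare ι _).trans ?_
  rw [← av_sum]
  have h1 : ∀ w : ι → Bool, ∑ i, dd (fun w => av fun x => XX a w x ^ 2) i w ^ 2 ≤
      2 * Γ * av (fun x => XX a w x ^ 2) + Γ / 2 * ∑ i, av fun x => a i x ^ 2 := by
    intro w
    refine (sum_le_sum fun i _ => dd_sq a i w).trans ?_
    rw [sum_add_distrib, ← mul_sum]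
    have h2 := hΓ (XX a w)
    have h3 : ∑ i, (av fun x => a i x ^ 2) ^ 2 / 2 ≤ Γ / 2 * ∑ i, av fun x => a i x ^ 2 := by
      rw [mul_sum]
      refine sum_le_sum fun i _ => ?_
      have h4 := hΓ (a i)
      have h5 : (av fun x => a i x ^ 2) ^ 2 ≤ ∑ j, (av fun x => a i x * a j x) ^ 2 := by
        have h6 := single_le_sum (f := fun j => (av fun x => a i x * a j x) ^ 2)
          (fun j _ => sq_nonneg _) (mem_univ i)
        refine le_trans (le_of_eq ?_) h6
        simp only [← sq]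
      linarith
    linarith
  refine (av_mono h1).trans ?_
  rw [av_add, av_mul_left, av_const, mean_sq]
  apply le_of_eq
  ring

theorem op_coe {ι : Type*} [Fintype ι] (S : Finset ℕ) (hS : S.Nonempty) (a : ι → ℕ → ℝ) (lam : ℝ)
    (hlam : 0 ≤ lam)
    (h : ∀ v : ι → ℝ, ∑ x ∈ S, (∑ i, v i * a i x) ^ 2 ≤ lam * ∑ i, v i ^ 2) :
    Op (fun i (x : S) => a i x) (lam / S.card) := by
  have hne : Nonempty S := hS.to_subtype
  refine op_of_dual _ _ (by positivity) fun v => ?_
  rw [av_coe S fun x => (∑ i, v i * a i x) ^ 2]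
  have h1 := div_le_div_of_nonneg_right (h v) (Nat.cast_nonneg S.card)
  refine h1.trans (le_of_eq ?_)
  ring

/-- few bit strings have a large quadratic statistic -/
theorem cheb_quad {ι : Type*} [Fintype ι] [DecidableEq ι] (S : Finset ℕ) (a : ι → ℕ → ℝ)
    (lam tr gap thr : ℝ) (hlam : 0 ≤ lam)
    (h : ∀ v : ι → ℝ, ∑ x ∈ S, (∑ i, v i * a i x) ^ 2 ≤ lam * ∑ i, v i ^ 2)
    (htr : ∑ i, ∑ x ∈ S, a i x ^ 2 ≤ tr) (hgap : 0 < gap) (hthr : tr / 4 + gap ≤ thr)
    [DecidablePred fun w : ι → Bool => thr < ∑ x ∈ S, (∑ i, hf (w i) * a i x) ^ 2] :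
    ((univ.filter fun w : ι → Bool => thr < ∑ x ∈ S, (∑ i, hf (w i) * a i x) ^ 2).card : ℝ) *
      gap ^ 2 ≤ 2 ^ Fintype.card ι * (lam * tr) := by
  classical
  have htr0 : 0 ≤ tr := le_trans (sum_nonneg fun i _ => sum_nonneg fun x _ => sq_nonneg _) htr
  have hcard : (Fintype.card (ι → Bool) : ℝ) = 2 ^ Fintype.card ι := by
    rw [Fintype.card_fun, Fintype.card_bool]
    push_cast
    rfl
  rcases S.eq_empty_or_nonempty with rfl | hS
  · have h1 : (univ.filter fun w : ι → Bool =>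
        thr < ∑ x ∈ (∅ : Finset ℕ), (∑ i, hf (w i) * a i x) ^ 2) = ∅ := by
      rw [filter_eq_empty_iff]
      intro w _
      rw [sum_empty, not_lt]
      linarith
    rw [h1, card_empty, Nat.cast_zero, zero_mul]
    positivity
  have hne : Nonempty S := hS.to_subtype
  have hS0 : (0 : ℝ) < S.card := by exact_mod_cast hS.card_pos
  set a' : ι → S → ℝ := fun i x => a i x with ha'
  have hop : Op a' (lam / S.card) := op_coe S hS a lam hlam h
  have htr' : ∑ i, av (fun x => a' i x ^ 2) ≤ tr / S.card := by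
    have h1 : ∀ i, av (fun x => a' i x ^ 2) = (∑ x ∈ S, a i x ^ 2) / S.card := fun i =>
      av_coe S fun x => a i x ^ 2
    rw [sum_congr rfl fun i _ => h1 i, ← sum_div]
    exact div_le_div_of_nonneg_right htr hS0.le
  have hm : av (fun w : ι → Bool => av fun x => XX a' w x ^ 2) ≤ tr / S.card / 4 := by
    rw [mean_sq]
    exact div_le_div_of_nonneg_right htr' (by norm_num)
  have hV : av (fun w : ι → Bool => (av fun x => XX a' w x ^ 2) ^ 2) -
      (av fun w : ι → Bool => av fun x => XX a' w x ^ 2) ^ 2 ≤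
      lam / S.card * (tr / S.card) :=
    (var_sq' a' _ (by positivity) hop).trans (mul_le_mul_of_nonneg_left htr' (by positivity))
  have h2 := cheb_up (fun w : ι → Bool => av fun x => XX a' w x ^ 2) _ (gap / S.card) _
    (by positivity) hm hV
  rw [hcard] at h2
  have h3 : ((univ.filter fun w : ι → Bool => thr < ∑ x ∈ S, (∑ i, hf (w i) * a i x) ^ 2).card : ℝ)
      ≤ ((univ.filter fun w : ι → Bool => tr / S.card / 4 + gap / S.card <
        av fun x => XX a' w x ^ 2).card : ℝ) := by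
    exact_mod_cast card_le_card fun w hw => by
      rw [mem_filter] at hw ⊢
      refine ⟨hw.1, ?_⟩
      have h4 : av (fun x => XX a' w x ^ 2) = (∑ x ∈ S, (∑ i, hf (w i) * a i x) ^ 2) / S.card := by
        rw [← av_coe S fun x => (∑ i, hf (w i) * a i x) ^ 2]
        congr 1
        funext x
        rw [ha', XX_hf]
      rw [h4, lt_div_iff₀ hS0]
      have h5 : (tr / S.card / 4 + gap / S.card) * S.card = tr / 4 + gap := by
        field_simp
      rw [h5]
      linarith [hw.2]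
  have h6 := mul_le_mul_of_nonneg_left h3 (by positivity : 0 ≤ (gap / S.card) ^ 2)
  have h7 := h6.trans h2
  have h8 := mul_le_mul_of_nonneg_right h7 (by positivity : (0 : ℝ) ≤ (S.card : ℝ) ^ 2)
  have e1 : (gap / S.card) ^ 2 * ((univ.filter fun w : ι → Bool => thr <
      ∑ x ∈ S, (∑ i, hf (w i) * a i x) ^ 2).card : ℝ) * (S.card : ℝ) ^ 2 =
      ((univ.filter fun w : ι → Bool => thr < ∑ x ∈ S, (∑ i, hf (w i) * a i x) ^ 2).card : ℝ) *
      gap ^ 2 := by
    field_simp
  have e2 : lam / S.card * (tr / S.card) * 2 ^ Fintype.card ι * (S.card : ℝ) ^ 2 =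
      2 ^ Fintype.card ι * (lam * tr) := by
    field_simp
  rw [e1, e2] at h8
  exact h8

/-- few bit strings have a small cosine statistic -/
theorem cheb_cos {ι : Type*} [Fintype ι] [DecidableEq ι] (S : Finset ℕ) (hS : S.Nonempty)
    (a : ι → ℕ → ℝ) (lam tr B t g eps : ℝ) (hlam : 0 ≤ lam)
    (h : ∀ v : ι → ℝ, ∑ x ∈ S, (∑ i, v i * a i x) ^ 2 ≤ lam * ∑ i, v i ^ 2)
    (htr : ∑ i, ∑ x ∈ S, a i x ^ 2 ≤ tr) (hB0 : 0 ≤ B) (hB : ∀ i, ∀ x ∈ S, |a i x| ≤ B)
    (htB : |t| * B ≤ 1) (hg : t ^ 2 * tr / (8 * S.card) ≤ g)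
    (heps : Fintype.card ι * (|t| * B) ^ 4 ≤ eps) (heps0 : 0 < eps)
    [DecidablePred fun w : ι → Bool =>
      (∑ x ∈ S, Real.cos (t * ∑ i, hf (w i) * a i x)) / S.card < Real.exp (-g) - eps] :
    ((univ.filter fun w : ι → Bool =>
      (∑ x ∈ S, Real.cos (t * ∑ i, hf (w i) * a i x)) / S.card < Real.exp (-g) - eps).card : ℝ) *
      eps ^ 2 ≤ 2 ^ Fintype.card ι * (t ^ 2 * lam / S.card + Fintype.card ι * (|t| * B) ^ 4) := by
  classical
  have hcard : (Fintype.card (ι → Bool) : ℝ) = 2 ^ Fintype.card ι := by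
    rw [Fintype.card_fun, Fintype.card_bool]
    push_cast
    rfl
  have hne : Nonempty S := hS.to_subtype
  have hS0 : (0 : ℝ) < S.card := by exact_mod_cast hS.card_pos
  set a' : ι → S → ℝ := fun i x => a i x with ha'
  have hop : Op a' (lam / S.card) := op_coe S hS a lam hlam h
  have htr' : ∑ i, av (fun x => a' i x ^ 2) ≤ tr / S.card := by
    have h1 : ∀ i, av (fun x => a' i x ^ 2) = (∑ x ∈ S, a i x ^ 2) / S.card := fun i =>
      av_coe S fun x => a i x ^ 2
    rw [sum_congr rfl fun i _ => h1 i, ← sum_div]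
    exact div_le_div_of_nonneg_right htr hS0.le
  set M : ℝ := (Fintype.card ι : ℝ) with hM
  set u : ℝ := (|t| * B) ^ 4 with hu
  have hM0 : 0 ≤ M := Nat.cast_nonneg _
  have hu0 : 0 ≤ u := by positivity
  have h1 := bad_cos a' t B (lam / S.card) (63 / 64 * eps) hB0 (fun i x => hB i x x.2) htB
    (by positivity) hop (by positivity)
  rw [hcard] at h1
  have hexp : Real.exp (-g) - eps ≤ Real.exp (-(t ^ 2 / 8 * ∑ i, av fun x => a' i x ^ 2) -
      M * u / 64) - 63 / 64 * eps := by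
    have h2 : t ^ 2 / 8 * ∑ i, av (fun x => a' i x ^ 2) ≤ g := by
      have h3 := mul_le_mul_of_nonneg_left htr' (by positivity : 0 ≤ t ^ 2 / 8)
      refine h3.trans (le_trans (le_of_eq ?_) hg)
      field_simp
    have h3 : Real.exp (-g - M * u / 64) ≤
        Real.exp (-(t ^ 2 / 8 * ∑ i, av fun x => a' i x ^ 2) - M * u / 64) :=
      Real.exp_le_exp.2 (by linarith)
    have hg0 : 0 ≤ g := by
      refine le_trans (mul_nonneg (by positivity) (sum_nonneg fun i _ => av_nonneg fun x => ?_)) h2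
      exact sq_nonneg _
    have h4 : Real.exp (-g) - M * u / 64 ≤ Real.exp (-g - M * u / 64) := by
      have h5 : Real.exp (-g - M * u / 64) = Real.exp (-g) * Real.exp (-(M * u / 64)) := by
        rw [← Real.exp_add]
        congr 1
      have h6 := Real.add_one_le_exp (-(M * u / 64))
      have h7 : Real.exp (-g) ≤ 1 := Real.exp_le_one_iff.2 (by linarith)
      have h8 := Real.exp_pos (-g)
      have h9 : 0 ≤ M * u / 64 := by positivity
      rw [h5]
      nlinarith [mul_le_mul_of_nonneg_left h6 h8.le]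
    linarith
  have h3 : ((univ.filter fun w : ι → Bool =>
      (∑ x ∈ S, Real.cos (t * ∑ i, hf (w i) * a i x)) / S.card < Real.exp (-g) - eps).card : ℝ)
      ≤ ((univ.filter fun w : ι → Bool => av (fun x => Real.cos (t * XX a' w x)) <
        Real.exp (-(t ^ 2 / 8 * ∑ i, av fun x => a' i x ^ 2) - M * u / 64) -
          63 / 64 * eps).card : ℝ) := by
    exact_mod_cast card_le_card fun w hw => by
      rw [mem_filter] at hw ⊢
      refine ⟨hw.1, ?_⟩
      have h4 : av (fun x => Real.cos (t * XX a' w x)) =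
          (∑ x ∈ S, Real.cos (t * ∑ i, hf (w i) * a i x)) / S.card := by
        rw [← av_coe S fun x => Real.cos (t * ∑ i, hf (w i) * a i x)]
        congr 1
        funext x
        rw [ha', XX_hf]
      rw [h4]
      exact lt_of_lt_of_le hw.2 hexp
  set n1 : ℝ := ((univ.filter fun w : ι → Bool =>
      (∑ x ∈ S, Real.cos (t * ∑ i, hf (w i) * a i x)) / S.card < Real.exp (-g) - eps).card : ℝ)
    with hn1
  have h4 := (mul_le_mul_of_nonneg_left h3 (by positivity : 0 ≤ (63 / 64 * eps) ^ 2)).trans h1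
  have hP : (0 : ℝ) ≤ 2 ^ Fintype.card ι := by positivity
  have h5 : 0 ≤ t ^ 2 * lam / S.card := by positivity
  have h6 : t ^ 2 / 2 * (lam / S.card) = t ^ 2 * lam / S.card / 2 := by ring
  rw [h6] at h4
  have hn0 : 0 ≤ n1 := Nat.cast_nonneg _
  have h7 : (63 / 64 * eps) ^ 2 * n1 = (63 / 64) ^ 2 * (n1 * eps ^ 2) := by ring
  rw [h7] at h4
  have h8 : 0 ≤ n1 * eps ^ 2 := by positivity
  have h9 : 0 ≤ (2 : ℝ) ^ Fintype.card ι * (t ^ 2 * lam / S.card) := by positivity
  have h10 : 0 ≤ (2 : ℝ) ^ Fintype.card ι * (M * u) := by positivity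
  have h11 : (t ^ 2 * lam / S.card / 2 + M * u / 5) * 2 ^ Fintype.card ι =
      2 ^ Fintype.card ι * (t ^ 2 * lam / S.card) / 2 + 2 ^ Fintype.card ι * (M * u) / 5 := by
    ring
  rw [h11] at h4
  rw [mul_add]
  nlinarith

end Pool.Agent.W_420c7c_s
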