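import Mathlib

/-! MP_420c7c_nt, theorem (S): averages over the discrete cube, the Poincare inequality. -/

set_option autoImplicit false
open Finset

namespace Pool.Agent.W_420c7c_s

/-- the average of `f` over a finite type -/
noncomputable def av {G : Type*} [Fintype G] (f : G → ℝ) : ℝ := (∑ x, f x) / Fintype.card G

/-- the sign of a bit -/
def sg (b : Bool) : ℝ := if b then 1 else -1

/-- the discrete derivative in direction `i` -/
noncomputable def dd {ι : Type*} [DecidableEq ι] (F : (ι → Bool) → ℝ) (i : ι) (w : ι → Bool) : ℝ :=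
  (F (Function.update w i true) - F (Function.update w i false)) / 2

section av

variable {G : Type*} [Fintype G]

theorem av_add (f g : G → ℝ) : av (fun x => f x + g x) = av f + av g := by
  unfold av
  rw [sum_add_distrib, add_div]

theorem av_sub (f g : G → ℝ) : av (fun x => f x - g x) = av f - av g := by
  unfold av
  rw [sum_sub_distrib, sub_div]

theorem av_mul_left (c : ℝ) (f : G → ℝ) : av (fun x => c * f x) = c * av f := by
  unfold av
  rw [← mul_sum, mul_div_assoc]

theorem av_sum {α : Type*} (s : Finset α) (f : α → G → ℝ) :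
    av (fun x => ∑ i ∈ s, f i x) = ∑ i ∈ s, av (f i) := by
  unfold av
  rw [sum_comm, sum_div]

theorem av_const [Nonempty G] (c : ℝ) : av (fun _ : G => c) = c := by
  unfold av
  rw [sum_const, card_univ, nsmul_eq_mul]
  have h : (Fintype.card G : ℝ) ≠ 0 := by exact_mod_cast Fintype.card_ne_zero
  field_simp

theorem av_mono {f g : G → ℝ} (h : ∀ x, f x ≤ g x) : av f ≤ av g := by
  unfold av
  exact div_le_div_of_nonneg_right (sum_le_sum fun x _ => h x) (Nat.cast_nonneg _)

theorem av_nonneg {f : G → ℝ} (h : ∀ x, 0 ≤ f x) : 0 ≤ av f := by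
  unfold av
  exact div_nonneg (sum_nonneg fun x _ => h x) (Nat.cast_nonneg _)

theorem av_equiv {G' : Type*} [Fintype G'] (e : G ≃ G') (f : G' → ℝ) :
    av (fun x => f (e x)) = av f := by
  unfold av
  rw [Fintype.card_congr e, Equiv.sum_comp e f]

/-- Cauchy-Schwarz: the square of an average. -/
theorem sq_av_le [Nonempty G] (f : G → ℝ) : (av f) ^ 2 ≤ av (fun x => f x ^ 2) := by
  have h := av_nonneg (G := G) (f := fun x => (f x - av f) ^ 2) fun x => sq_nonneg _
  have e : av (fun x => (f x - av f) ^ 2) = av (fun x => f x ^ 2) - (av f) ^ 2 := by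
    have e1 : (fun x => (f x - av f) ^ 2) = fun x => (f x ^ 2 - (2 * av f) * f x) + (av f) ^ 2 := by
      funext x
      ring
    rw [e1, av_add, av_sub, av_mul_left, av_const]
    ring
  linarith

theorem abs_av_le (f : G → ℝ) : |av f| ≤ av (fun x => |f x|) := by
  unfold av
  rw [abs_div, Nat.abs_cast]
  exact div_le_div_of_nonneg_right (abs_sum_le_sum_abs _ _) (Nat.cast_nonneg _)

/-- Markov's inequality. -/
theorem markov [Nonempty G] (f : G → ℝ) (h : ∀ x, 0 ≤ f x) (c : ℝ) [DecidablePred fun x => c ≤ f x] :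
    c * ((univ.filter fun x => c ≤ f x).card : ℝ) ≤ av f * Fintype.card G := by
  have hc : (Fintype.card G : ℝ) ≠ 0 := by exact_mod_cast Fintype.card_ne_zero
  unfold av
  rw [div_mul_cancel₀ _ hc]
  calc c * ((univ.filter fun x => c ≤ f x).card : ℝ)
      = ∑ x ∈ univ.filter (fun x => c ≤ f x), c := by rw [sum_const, nsmul_eq_mul, mul_comm]
    _ ≤ ∑ x ∈ univ.filter (fun x => c ≤ f x), f x :=
        sum_le_sum fun x hx => (mem_filter.1 hx).2
    _ ≤ ∑ x, f x := sum_le_sum_of_subset_of_nonneg (filter_subset _ _) fun x _ _ => h x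

end av

theorem av_cons {n : ℕ} (f : (Fin (n + 1) → Bool) → ℝ) :
    av f = (av (fun w : Fin n → Bool => f (Fin.cons true w)) +
      av (fun w : Fin n → Bool => f (Fin.cons false w))) / 2 := by
  unfold av
  rw [← Equiv.sum_comp (Fin.consEquiv fun _ : Fin (n + 1) => Bool) f, Fintype.sum_prod_type,
    Fintype.sum_bool]
  simp only [Fintype.card_pi, Fintype.card_bool, prod_const, card_univ, Fintype.card_fin]
  simp only [Fin.consEquiv, Equiv.coe_fn_mk]
  push_cast
  rw [pow_succ]
  field_simp

theorem poincare_fin (n : ℕ) : ∀ F : (Fin n → Bool) → ℝ,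
    av (fun w => F w ^ 2) - (av F) ^ 2 ≤ ∑ i, av (fun w => dd F i w ^ 2) := by
  induction n with
  | zero =>
    intro F
    have h : F = fun _ => F default := by
      funext w
      rw [Subsingleton.elim w default]
    rw [h]
    simp [av_const]
  | succ n ih =>
    intro F
    set F1 : (Fin n → Bool) → ℝ := fun w => F (Fin.cons true w) with hF1
    set F0 : (Fin n → Bool) → ℝ := fun w => F (Fin.cons false w) with hF0
    have h1 := ih F1
    have h0 := ih F0
    rw [Fin.sum_univ_succ, av_cons F, av_cons (fun w => F w ^ 2)]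
    have e0 : av (fun w => dd F 0 w ^ 2) = av (fun w => ((F1 w - F0 w) / 2) ^ 2) := by
      rw [av_cons]
      simp only [dd, Fin.update_cons_zero]
      ring
    have e1 : ∀ i : Fin n, av (fun w => dd F i.succ w ^ 2) =
        (av (fun w => dd F1 i w ^ 2) + av (fun w => dd F0 i w ^ 2)) / 2 := by
      intro i
      rw [av_cons]
      simp only [dd, ← Fin.cons_update]
      rfl
    have e2 : ((av F1 - av F0) / 2) ^ 2 ≤ av (fun w => ((F1 w - F0 w) / 2) ^ 2) := by
      have h2 := sq_av_le (fun w => (F1 w - F0 w) / 2)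
      have e3 : av (fun w => (F1 w - F0 w) / 2) = (av F1 - av F0) / 2 := by
        have e4 : (fun w => (F1 w - F0 w) / 2) = fun w => (1 / 2 : ℝ) * (F1 w - F0 w) := by
          funext w
          ring
        rw [e4, av_mul_left, av_sub]
        ring
      rwa [e3] at h2
    rw [e0, sum_congr rfl fun i _ => e1 i, ← sum_div, sum_add_distrib]
    have e5 : ((av F1 + av F0) / 2) ^ 2 = (av F1 ^ 2 + av F0 ^ 2) / 2 - ((av F1 - av F0) / 2) ^ 2 := by
      ring
    rw [e5]
    linarith

/-- The Poincare inequality on the discrete cube. -/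
theorem poincare (ι : Type*) [Fintype ι] [DecidableEq ι] (F : (ι → Bool) → ℝ) :
    av (fun w => F w ^ 2) - (av F) ^ 2 ≤ ∑ i, av (fun w => dd F i w ^ 2) := by
  set n := Fintype.card ι
  let e : ι ≃ Fin n := Fintype.equivFin ι
  have h := poincare_fin n (fun w => F (w ∘ e))
  have ea : ∀ f : (ι → Bool) → ℝ, av (fun w : Fin n → Bool => f (w ∘ e)) = av f := by
    intro f
    exact av_equiv (e.symm.arrowCongr (Equiv.refl Bool)) f
  rw [ea (fun w => F w ^ 2), ea F] at h
  refine h.trans (le_of_eq ?_)
  rw [← Equiv.sum_comp e]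
  refine sum_congr rfl fun i _ => ?_
  rw [← ea (fun w => dd F i w ^ 2)]
  congr 1
  funext w
  simp only [dd]
  congr 3 <;> congr 1
  all_goals
    rw [Function.update_comp_equiv, Equiv.symm_apply_apply]

end Pool.Agent.W_420c7c_s
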