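import Pool.Agent.W_420c7c_s.Cube

/-! MP_420c7c_nt, theorem (S): Rademacher sums, mean and variance of the two statistics. -/

set_option autoImplicit false
set_option maxHeartbeats 1000000
open Finset

namespace Pool.Agent.W_420c7c_s

theorem av_cos_fin (n : ℕ) : ∀ y : Fin n → ℝ,
    av (fun w : Fin n → Bool => Real.cos (∑ i, sg (w i) * y i)) = ∏ i, Real.cos (y i) := by
  induction n with
  | zero =>
    intro y
    simp [av_const]
  | succ n ih =>
    intro y
    rw [av_cons, Fin.prod_univ_succ, ← ih fun i => y i.succ, ← av_mul_left, ← av_add]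
    have e : (fun w : Fin n → Bool =>
        Real.cos (∑ i : Fin (n + 1), sg ((Fin.cons true w : Fin (n + 1) → Bool) i) * y i) +
        Real.cos (∑ i : Fin (n + 1), sg ((Fin.cons false w : Fin (n + 1) → Bool) i) * y i)) =
        fun w => 2 * (Real.cos (y 0) * Real.cos (∑ i : Fin n, sg (w i) * y i.succ)) := by
      funext w
      rw [Fin.sum_univ_succ, Fin.sum_univ_succ]
      simp only [Fin.cons_zero, Fin.cons_succ]
      simp only [sg, if_true, Bool.false_eq_true, if_false]
      rw [one_mul, Real.cos_add, neg_one_mul, Real.cos_add, Real.cos_neg, Real.sin_neg]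
      ring
    rw [e, av_mul_left]
    ring

theorem av_sq_fin (n : ℕ) : ∀ y : Fin n → ℝ, ∀ c : ℝ,
    av (fun w : Fin n → Bool => (c + ∑ i, sg (w i) * y i) ^ 2) = c ^ 2 + ∑ i, y i ^ 2 := by
  induction n with
  | zero =>
    intro y c
    simp [av_const]
  | succ n ih =>
    intro y c
    rw [av_cons, Fin.sum_univ_succ]
    have e : ∀ b : Bool, (fun w : Fin n → Bool =>
        (c + ∑ i : Fin (n + 1), sg ((Fin.cons b w : Fin (n + 1) → Bool) i) * y i) ^ 2) =
        fun w => ((c + sg b * y 0) + ∑ i : Fin n, sg (w i) * y i.succ) ^ 2 := by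
      intro b
      funext w
      rw [Fin.sum_univ_succ]
      simp only [Fin.cons_zero, Fin.cons_succ]
      ring
    rw [e true, e false, ih, ih]
    simp only [sg, if_true, Bool.false_eq_true, if_false]
    ring

section gen

variable {ι : Type*} [Fintype ι] [DecidableEq ι]

theorem av_comp (f : (ι → Bool) → ℝ) :
    av (fun w : Fin (Fintype.card ι) → Bool => f (w ∘ Fintype.equivFin ι)) = av f :=
  av_equiv ((Fintype.equivFin ι).symm.arrowCongr (Equiv.refl Bool)) f

theorem av_cos (y : ι → ℝ) :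
    av (fun w : ι → Bool => Real.cos (∑ i, sg (w i) * y i)) = ∏ i, Real.cos (y i) := by
  rw [← av_comp]
  have h := av_cos_fin (Fintype.card ι) (fun j => y ((Fintype.equivFin ι).symm j))
  rw [Equiv.prod_comp (Fintype.equivFin ι).symm fun i => Real.cos (y i)] at h
  rw [← h]
  congr 1
  funext w
  congr 1
  rw [← Equiv.sum_comp (Fintype.equivFin ι)]
  simp

theorem av_sq (y : ι → ℝ) :
    av (fun w : ι → Bool => (∑ i, sg (w i) * y i) ^ 2) = ∑ i, y i ^ 2 := by
  rw [← av_comp]
  have h := av_sq_fin (Fintype.card ι) (fun j => y ((Fintype.equivFin ι).symm j)) 0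
  rw [Equiv.sum_comp (Fintype.equivFin ι).symm fun i => (y i) ^ 2] at h
  have h2 : (0 : ℝ) ^ 2 + ∑ i, y i ^ 2 = ∑ i, y i ^ 2 := by ring
  rw [← h2, ← h]
  congr 1
  funext w
  rw [zero_add]
  congr 1
  rw [← Equiv.sum_comp (Fintype.equivFin ι)]
  simp

end gen

theorem cos_ge_exp {y : ℝ} (hy : |y| ≤ 1) : Real.exp (-(y ^ 2 / 2) - y ^ 4 / 4) ≤ Real.cos y := by
  have h0 := Real.one_sub_sq_div_two_le_cos (x := y)
  refine le_trans ?_ h0
  have hz : y ^ 2 ≤ 1 := by
    rw [← sq_abs]
    nlinarith [abs_nonneg y]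
  have hz0 : 0 ≤ y ^ 2 := sq_nonneg y
  set z : ℝ := y ^ 2 / 2 with hzd
  have e1 : -(y ^ 2 / 2) - y ^ 4 / 4 = -(z + z ^ 2) := by
    rw [hzd]
    ring
  have e2 : 1 - y ^ 2 / 2 = 1 - z := rfl
  have hz1 : 0 ≤ z := by positivity
  have hz2 : z ≤ 1 / 2 := by rw [hzd]; linarith
  rw [e1, Real.exp_neg]
  have h1 := Real.quadratic_le_exp_of_nonneg (x := z + z ^ 2) (by positivity)
  rw [inv_le_comm₀ (Real.exp_pos _) (by linarith)]
  refine le_trans ?_ h1
  rw [inv_le_iff_one_le_mul₀ (by linarith)]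
  nlinarith [mul_nonneg hz1 hz1, mul_nonneg (mul_nonneg hz1 hz1) (sub_nonneg.2 hz2),
    mul_nonneg (mul_nonneg (mul_nonneg hz1 hz1) hz1) (sub_nonneg.2 hz2),
    mul_nonneg (mul_nonneg (mul_nonneg (mul_nonneg hz1 hz1) hz1) hz1) (sub_nonneg.2 hz2)]

theorem abs_sin_sub_le {y : ℝ} (hy : |y| ≤ 1) : |Real.sin y - y| ≤ |y| ^ 3 / 4 := by
  have key : ∀ x : ℝ, 0 ≤ x → x ≤ 1 → |Real.sin x - x| ≤ |x| ^ 3 / 4 := by
    intro x h0 h1
    rcases h0.eq_or_lt with h | h
    · simp [← h]
    have h2 := Real.sin_lt h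
    have h3 := Real.sin_gt_sub_cube h
    have h4 : 0 < x ^ 3 := pow_pos h 3
    rw [abs_of_nonneg h0, abs_of_nonpos (by linarith)]
    linarith
  rcases le_total 0 y with h | h
  · exact key y h (by rwa [abs_of_nonneg h] at hy)
  · have h1 := key (-y) (by linarith) (by rwa [abs_of_nonpos h] at hy)
    rw [Real.sin_neg, abs_neg] at h1
    rwa [show -Real.sin y - -y = -(Real.sin y - y) by ring, abs_neg] at h1

/-- Jensen's inequality for the exponential. -/
theorem exp_av_le {G : Type*} [Fintype G] [Nonempty G] (q : G → ℝ) :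
    Real.exp (av q) ≤ av (fun x => Real.exp (q x)) := by
  have h : ∀ x, Real.exp (av q) * (1 + (q x - av q)) ≤ Real.exp (q x) := by
    intro x
    have h1 := Real.add_one_le_exp (q x - av q)
    have h2 : Real.exp (q x) = Real.exp (av q) * Real.exp (q x - av q) := by
      rw [← Real.exp_add]
      congr 1
      ring
    rw [h2]
    refine mul_le_mul_of_nonneg_left ?_ (Real.exp_pos _).le
    linarith
  have h2 := av_mono h
  rw [av_mul_left, av_add, av_sub, av_const, av_const, sub_self, add_zero, mul_one] at h2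
  exact h2

end Pool.Agent.W_420c7c_s
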