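import Mathlib

/-! MP_420c7c_nt, theorem (S): the absolute value as a trigonometric sum, and the Gaussian
Riemann sum. -/

set_option autoImplicit false
set_option maxHeartbeats 1000000
open Finset

namespace Pool.Agent.W_420c7c_s

theorem tri_aux {x : ℝ} (h0 : 0 ≤ x) (h1 : x ≤ 1) (J : ℕ) (hJ : 1 ≤ J) :
    Real.pi ^ 2 * (x - x ^ 2) ≤
      ∑ n ∈ range J, (1 - Real.cos (2 * Real.pi * ((n : ℝ) + 1) * x)) / ((n : ℝ) + 1) ^ 2 +
        2 / J := by
  have hs := hasSum_one_div_nat_pow_mul_cos (k := 1) one_ne_zero (x := x) ⟨h0, h1⟩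
  have hz := hasSum_zeta_two
  have hd := hz.sub hs
  have hv : Real.pi ^ 2 / 6 - (-1 : ℝ) ^ (1 + 1) * (2 * Real.pi) ^ (2 * 1) / 2 / (2 * 1).factorial *
      (Polynomial.map (algebraMap ℚ ℝ) (Polynomial.bernoulli (2 * 1))).eval x =
      Real.pi ^ 2 * (x - x ^ 2) := by
    have hb : (Polynomial.map (algebraMap ℚ ℝ) (Polynomial.bernoulli (2 * 1))).eval x =
        x ^ 2 - x + 1 / 6 := by
      rw [mul_one, Polynomial.bernoulli_def]
      simp only [sum_range_succ, sum_range_zero, zero_add]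
      simp [bernoulli_one, bernoulli_two, Polynomial.eval_add]
      ring
    rw [hb]
    norm_num [Nat.factorial]
    ring
  rw [hv] at hd
  refine hasSum_le_of_sum_le hd fun s => ?_
  -- the general term
  set f : ℕ → ℝ := fun n => 1 / (n : ℝ) ^ 2 - 1 / (n : ℝ) ^ (2 * 1) *
    Real.cos (2 * Real.pi * n * x) with hf
  have hf1 : ∀ n : ℕ, f n = (1 - Real.cos (2 * Real.pi * n * x)) / (n : ℝ) ^ 2 := by
    intro n
    rw [hf]
    simp only [mul_one]
    ring
  have hfp : ∀ n : ℕ, 0 ≤ f n := by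
    intro n
    rw [hf1]
    exact div_nonneg (by linarith [Real.cos_le_one (2 * Real.pi * n * x)]) (sq_nonneg _)
  have hf2 : ∀ n : ℕ, f n ≤ 2 * ((n : ℝ) ^ 2)⁻¹ := by
    intro n
    rw [hf1, div_eq_mul_inv]
    exact mul_le_mul_of_nonneg_right (by linarith [Real.neg_one_le_cos (2 * Real.pi * n * x)])
      (inv_nonneg.2 (sq_nonneg _))
  have hf0 : f 0 = 0 := by
    rw [hf1]
    simp
  obtain ⟨N, hN⟩ : ∃ N, s ⊆ range (N + 1) := by
    refine ⟨s.sup id, fun n hn => ?_⟩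
    rw [mem_range, Nat.lt_succ_iff]
    exact le_sup (f := id) hn
  have h2 : ∑ n ∈ s, f n ≤ ∑ n ∈ range (max N J + 1), f n :=
    sum_le_sum_of_subset_of_nonneg (hN.trans (range_subset_range.2 (by
      have := le_max_left N J
      omega))) fun n _ _ => hfp n
  refine h2.trans ?_
  have h3 : range (max N J + 1) = range (J + 1) ∪ Ioc J (max N J) := by
    ext n
    simp only [mem_union, mem_range, mem_Ioc]
    have := le_max_right N J
    omega
  have h4 : Disjoint (range (J + 1)) (Ioc J (max N J)) := by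
    rw [disjoint_left]
    intro n hn hn2
    rw [mem_range] at hn
    rw [mem_Ioc] at hn2
    omega
  rw [h3, sum_union h4, sum_range_succ', hf0, add_zero]
  have h5 : ∑ n ∈ range J, f (n + 1) =
      ∑ n ∈ range J, (1 - Real.cos (2 * Real.pi * ((n : ℝ) + 1) * x)) / ((n : ℝ) + 1) ^ 2 := by
    refine sum_congr rfl fun n _ => ?_
    rw [hf1]
    push_cast
    rfl
  rw [h5]
  have h6 : ∑ n ∈ Ioc J (max N J), f n ≤ 2 / J := by
    refine (sum_le_sum fun n _ => hf2 n).trans ?_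
    rw [← mul_sum]
    have h7 := sum_Ioc_inv_sq_le_sub (α := ℝ) (k := J) (n := max N J) (by omega) (le_max_right _ _)
    have h8 : (0 : ℝ) ≤ ((max N J : ℕ) : ℝ)⁻¹ := inv_nonneg.2 (Nat.cast_nonneg _)
    have h9 : (2 : ℝ) / J = 2 * (J : ℝ)⁻¹ := by rw [div_eq_mul_inv]
    rw [h9]
    refine mul_le_mul_of_nonneg_left ?_ (by norm_num)
    linarith
  linarith

/-- The absolute value is at most a finite trigonometric sum plus small errors. -/
theorem abs_le_tri (z P : ℝ) (hP : 0 < P) (J : ℕ) (hJ : 1 ≤ J) :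
    |z| ≤ P / Real.pi ^ 2 *
      ∑ n ∈ range J, (1 - Real.cos (2 * Real.pi * ((n : ℝ) + 1) / P * z)) / ((n : ℝ) + 1) ^ 2 +
        2 * P / (Real.pi ^ 2 * J) + z ^ 2 / P := by
  have hpi : 0 < Real.pi ^ 2 := by positivity
  have hJ0 : (0 : ℝ) < J := by exact_mod_cast hJ
  have hsum : 0 ≤ ∑ n ∈ range J,
      (1 - Real.cos (2 * Real.pi * ((n : ℝ) + 1) / P * z)) / ((n : ℝ) + 1) ^ 2 :=
    sum_nonneg fun n _ => div_nonneg
      (by linarith [Real.cos_le_one (2 * Real.pi * ((n : ℝ) + 1) / P * z)]) (sq_nonneg _)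
  rcases le_total |z| P with h | h
  · have h1 := tri_aux (x := |z| / P) (by positivity) ((div_le_one hP).2 h) J hJ
    have h2 : ∀ n : ℕ, Real.cos (2 * Real.pi * ((n : ℝ) + 1) * (|z| / P)) =
        Real.cos (2 * Real.pi * ((n : ℝ) + 1) / P * z) := by
      intro n
      rw [← Real.cos_abs (2 * Real.pi * ((n : ℝ) + 1) / P * z), abs_mul,
        abs_of_nonneg (by positivity : 0 ≤ 2 * Real.pi * ((n : ℝ) + 1) / P)]
      congr 1
      ring
    simp only [h2] at h1
    have h3 : P / Real.pi ^ 2 * (Real.pi ^ 2 * (|z| / P - (|z| / P) ^ 2)) = |z| - z ^ 2 / P := by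
      have h4 : z ^ 2 = |z| ^ 2 := (sq_abs z).symm
      rw [h4]
      field_simp
    have h5 := mul_le_mul_of_nonneg_left h1 (by positivity : 0 ≤ P / Real.pi ^ 2)
    rw [h3, mul_add] at h5
    have h6 : P / Real.pi ^ 2 * (2 / J) = 2 * P / (Real.pi ^ 2 * J) := by
      field_simp
    rw [h6] at h5
    linarith
  · have h1 : |z| ≤ z ^ 2 / P := by
      rw [le_div_iff₀ hP, ← sq_abs, sq]
      exact mul_le_mul_of_nonneg_left h (abs_nonneg z)
    have h2 : 0 ≤ 2 * P / (Real.pi ^ 2 * J) := by positivity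
    have h3 : 0 ≤ P / Real.pi ^ 2 *
        ∑ n ∈ range J, (1 - Real.cos (2 * Real.pi * ((n : ℝ) + 1) / P * z)) / ((n : ℝ) + 1) ^ 2 :=
      mul_nonneg (by positivity) hsum
    linarith

/-- Riemann sum of a Gaussian. -/
theorem riem_gauss (b : ℝ) (hb : 0 < b) (J : ℕ) :
    ∑ n ∈ range J, Real.exp (-b * ((n : ℝ) + 1) ^ 2) ≤ √(Real.pi / b) / 2 := by
  have h1 : AntitoneOn (fun x : ℝ => Real.exp (-b * x ^ 2)) (Set.Icc (0 : ℝ) (0 + (J : ℕ))) := by
    intro x hx y hy hxy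
    refine Real.exp_le_exp.2 ?_
    have h2 : x ^ 2 ≤ y ^ 2 := pow_le_pow_left₀ hx.1 hxy 2
    nlinarith
  have h2 := h1.sum_le_integral
  simp only [zero_add] at h2
  have h3 : ∫ x in (0 : ℝ)..(J : ℝ), Real.exp (-b * x ^ 2) ≤ √(Real.pi / b) / 2 := by
    rw [← integral_gaussian_Ioi, intervalIntegral.integral_of_le (Nat.cast_nonneg _)]
    refine MeasureTheory.setIntegral_mono_set ?_ ?_ ?_
    · exact (integrable_exp_neg_mul_sq hb).integrableOn
    · exact Filter.Eventually.of_forall fun x => (Real.exp_pos _).le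
    · exact Filter.Eventually.of_forall fun x hx => hx.1
  refine le_trans (le_of_eq ?_) (h2.trans h3)
  refine sum_congr rfl fun n _ => ?_
  push_cast
  rfl

theorem one_sub_exp_eq (s : ℝ) (hs : 0 < s) :
    (1 - Real.exp (-s)) / s = ∫ v in (0 : ℝ)..1, Real.exp (-s * v) := by
  have h : ∀ v ∈ Set.uIcc (0 : ℝ) 1, HasDerivAt (fun v => -Real.exp (-s * v) / s)
      (Real.exp (-s * v)) v := by
    intro v _
    have h1 : HasDerivAt (fun v : ℝ => -s * v) (-s) v := by
      simpa using (hasDerivAt_id v).const_mul (-s)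
    have h2 := (h1.exp.neg).div_const s
    have e : -(Real.exp (-s * v) * -s) / s = Real.exp (-s * v) := by
      rw [mul_neg, neg_neg, mul_div_cancel_right₀ _ hs.ne']
    rw [e] at h2
    exact h2
  rw [intervalIntegral.integral_eq_sub_of_hasDerivAt h ?_]
  · simp
    ring
  · exact (by fun_prop : Continuous fun v => Real.exp (-s * v)).intervalIntegrable _ _

/-- `(P/(2 pi^2)) Sum_{n<=J} (1 - exp(-R^2 t_n^2))/n^2 <= R/sqrt(pi)`, `t_n = 2 pi n/P`. -/
theorem gauss_le (R P : ℝ) (hR : 0 < R) (hP : 0 < P) (J : ℕ) :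
    P / (2 * Real.pi ^ 2) * ∑ n ∈ range J,
      (1 - Real.exp (-(R ^ 2 * (2 * Real.pi * ((n : ℝ) + 1) / P) ^ 2))) / ((n : ℝ) + 1) ^ 2 ≤
      R / √Real.pi := by
  have hpi := Real.pi_pos
  set b : ℝ := R ^ 2 * (2 * Real.pi / P) ^ 2 with hb
  have hb0 : 0 < b := by positivity
  have h1 : ∀ n : ℕ, (1 - Real.exp (-(R ^ 2 * (2 * Real.pi * ((n : ℝ) + 1) / P) ^ 2))) /
      ((n : ℝ) + 1) ^ 2 = b * ∫ v in (0 : ℝ)..1, Real.exp (-(b * v) * ((n : ℝ) + 1) ^ 2) := by
    intro n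
    have hn : (0 : ℝ) < (n : ℝ) + 1 := by positivity
    have h2 := one_sub_exp_eq (b * ((n : ℝ) + 1) ^ 2) (by positivity)
    have h3 : R ^ 2 * (2 * Real.pi * ((n : ℝ) + 1) / P) ^ 2 = b * ((n : ℝ) + 1) ^ 2 := by
      rw [hb]
      ring
    have h4 : ∀ v : ℝ, -(b * v) * ((n : ℝ) + 1) ^ 2 = -(b * ((n : ℝ) + 1) ^ 2) * v := by
      intro v
      ring
    rw [h3]
    simp only [h4]
    rw [← h2]
    field_simp
  simp only [h1]
  rw [← mul_sum, ← intervalIntegral.integral_finsetSum]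
  swap
  · intro n _
    exact (by fun_prop : Continuous fun v => Real.exp (-(b * v) * ((n : ℝ) + 1) ^ 2)).intervalIntegrable
      _ _
  have h5 : ∫ v in (0 : ℝ)..1, ∑ n ∈ range J, Real.exp (-(b * v) * ((n : ℝ) + 1) ^ 2) ≤
      ∫ v in (0 : ℝ)..1, √(Real.pi / b) / 2 * v ^ (-(1 / 2) : ℝ) := by
    refine intervalIntegral.integral_mono_on_of_le_Ioo zero_le_one ?_ ?_ ?_
    · exact (by fun_prop : Continuous fun v => ∑ n ∈ range J,
        Real.exp (-(b * v) * ((n : ℝ) + 1) ^ 2)).intervalIntegrable _ _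
    · exact (intervalIntegral.intervalIntegrable_rpow' (by norm_num)).const_mul _
    · intro v hv
      refine (riem_gauss (b * v) (mul_pos hb0 hv.1) J).trans (le_of_eq ?_)
      rw [Real.rpow_neg hv.1.le, ← Real.sqrt_eq_rpow, ← div_div, Real.sqrt_div (by positivity)]
      field_simp
  have h6 : ∫ v in (0 : ℝ)..1, √(Real.pi / b) / 2 * v ^ (-(1 / 2) : ℝ) = √(Real.pi / b) := by
    rw [intervalIntegral.integral_const_mul, integral_rpow (Or.inl (by norm_num))]
    norm_num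
  rw [h6] at h5
  have h7 : √(Real.pi / b) = √Real.pi * P / (R * (2 * Real.pi)) := by
    have h8 : Real.pi / b = (√Real.pi * P / (R * (2 * Real.pi))) ^ 2 := by
      have h9 : (√Real.pi * P / (R * (2 * Real.pi))) ^ 2 =
          (√Real.pi) ^ 2 * P ^ 2 / (R * (2 * Real.pi)) ^ 2 := by ring
      rw [h9, Real.sq_sqrt hpi.le, hb]
      field_simp
    rw [h8, Real.sqrt_sq (by positivity)]
  have h9 := mul_le_mul_of_nonneg_left h5 hb0.le
  have h10 := mul_le_mul_of_nonneg_left h9 (by positivity : 0 ≤ P / (2 * Real.pi ^ 2))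
  refine h10.trans (le_of_eq ?_)
  rw [h7, hb]
  have h11 : √Real.pi * √Real.pi = Real.pi := Real.mul_self_sqrt hpi.le
  have h12 : √Real.pi ≠ 0 := by positivity
  field_simp
  nlinarith [h11]

end Pool.Agent.W_420c7c_s
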